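import Pool.Agent.Lib.EQG.GWey
import Pool.Agent.Lib.EQD.Equi

/-!
# LowG: equidistribution of the residues (fork of `EQD/Equi`, `EQD/Prof`)
-/

set_option autoImplicit false

open Finset Polynomial

namespace Pool.Agent.EQD.Lo.G

open Pool.Agent.HLT Pool.Agent.NLT Pool.Agent.NLG
open Pool.Agent.EQD.G (GDeg MidG LowG Sw)

open WeylSAux in
theorem weyl_slow (D : ℕ) (hD : 1 ≤ D) (P : ℤ[X]) (hP : P.natDegree = D) :
    ∃ C : ℕ, ∀ (M : ℕ) [NeZero M] (N R V Q a : ℕ) (η : ℝ) (F : ZMod M → ℂ), 2 ≤ R → R ^ C ≤ N → R ^ C ≤ V → 1 ≤ Q →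
      Q * R ^ C ≤ N → Q * R ^ C ≤ V → ¬ Q ∣ a → 0 ≤ η → Bd F → (∀ y : ZMod M, ∀ v < V, ‖F (y + (v : ZMod M)) - F y‖ ≤ η) →
      n2 (fun x : ZMod M => tv N (fun m => ex ((a : ℝ) * (m : ℝ) / (Q : ℝ)) * F (x + pz M P m))) ≤
        2 / (R : ℝ) ^ 2 + 2 * η ^ 2 := by
  obtain ⟨C, hC⟩ := Pool.Agent.EQD.G.weyl_claim D hD P hP
  refine ⟨C, ?_⟩
  intro M _ N R V Q a η F hR hRN hRV hQ hQN hQV ha hη hF hslow
  have hcl := hC N R V Q a hR hRN hRV hQ hQN hQV ha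
  have hR0 : (0 : ℝ) < R := by
    have : 0 < R := by omega
    exact_mod_cast this
  have hV1 : 1 ≤ V := le_trans (Nat.one_le_pow _ _ (by omega)) hRV
  set e : ℕ → ℂ := fun m => ex ((a : ℝ) * (m : ℝ) / (Q : ℝ)) with he
  set F1 : ZMod M → ℂ := Eb 1 V F with hF1
  have hF2 : ∀ x, ‖F x - F1 x‖ ≤ η := by
    intro x
    have h1 : F x - F1 x = tv V (fun i => F x - F (x + ((1 * i : ℕ) : ZMod M))) := by
      rw [tv_sub, tv_const V hV1]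
      rfl
    rw [h1]
    refine (norm_tv_le _ _).trans (tvr_le _ hη fun i hi => ?_)
    rw [one_mul, norm_sub_rev]
    exact hslow x i hi
  set G : ZMod M → ℂ := fun x => tv N (fun m => e m * F1 (x + pz M P m)) with hG
  have hpt : ∀ x, ‖tv N (fun m => e m * F (x + pz M P m))‖ ^ 2 ≤ 2 * ‖G x‖ ^ 2 + 2 * η ^ 2 := by
    intro x
    have h1 : tv N (fun m => e m * F (x + pz M P m)) - G x =
        tv N (fun m => e m * (F (x + pz M P m) - F1 (x + pz M P m))) := by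
      rw [hG, ← tv_sub]
      congr 1
      funext m
      ring
    have h2 : ‖tv N (fun m => e m * F (x + pz M P m)) - G x‖ ≤ η := by
      rw [h1]
      refine (norm_tv_le _ _).trans (tvr_le _ hη fun m _ => ?_)
      rw [norm_mul, he]
      simp only [norm_ex, one_mul]
      exact hF2 _
    have h3 : ‖tv N (fun m => e m * F (x + pz M P m))‖ ≤ ‖G x‖ + η := by
      have h4 := norm_add_le (tv N (fun m => e m * F (x + pz M P m)) - G x) (G x)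
      rw [sub_add_cancel] at h4
      linarith
    have h5 := norm_nonneg (tv N (fun m => e m * F (x + pz M P m)))
    have h6 := norm_nonneg (G x)
    nlinarith [sq_nonneg (‖G x‖ - η)]
  -- the Fourier expansion
  have hFT : ∀ x, G x = ∑ ξ : ZMod M, (ft F1 ξ * W N Q a P ((ξ.val : ℝ) / (M : ℝ))) * chi ξ x := by
    intro x
    have h1 : ∀ m, e m * F1 (x + pz M P m) = ∑ ξ : ZMod M, (ft F1 ξ * chi ξ x) *
        (e m * ex (((ξ.val : ℝ) / (M : ℝ)) * ((P.eval (m : ℤ) : ℤ) : ℝ))) := by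
      intro m
      rw [inversion F1 (x + pz M P m), mul_sum]
      refine sum_congr rfl fun ξ _ => ?_
      rw [chi_add_right]
      unfold pz
      rw [chi_int, mul_comm (((P.eval (m : ℤ) : ℤ) : ℝ)) ((ξ.val : ℝ) / (M : ℝ))]
      ring
    rw [hG]
    simp only [h1]
    unfold tv W tv
    rw [sum_comm, sum_div]
    refine sum_congr rfl fun ξ _ => ?_
    rw [← mul_sum]
    ring
  have hn2 : n2 G ≤ 1 / (R : ℝ) ^ 2 := by
    have h1 : n2 G = ∑ ξ : ZMod M, ‖ft F1 ξ * W N Q a P ((ξ.val : ℝ) / (M : ℝ))‖ ^ 2 := by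
      unfold n2
      rw [← parseval_series]
      congr 1
      funext x
      rw [hFT x]
    rw [h1]
    have h2 : ∀ ξ : ZMod M, ‖ft F1 ξ * W N Q a P ((ξ.val : ℝ) / (M : ℝ))‖ ^ 2 ≤
        (1 / (R : ℝ)) ^ 2 * ‖ft F ξ‖ ^ 2 := by
      intro ξ
      have h3 : F1 = cv (bk 1 V) F := by
        funext x
        rw [cv_bk]
      have h4 : ft F1 ξ = dk V ((ξ.val : ℝ) / (M : ℝ)) * ft F ξ := by
        rw [h3, ft_cv, mul_bk, Nat.cast_one, one_mul]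
      rw [h4, norm_mul, norm_mul]
      have h5 := hcl ((ξ.val : ℝ) / (M : ℝ))
      have h6 : ‖dk V ((ξ.val : ℝ) / (M : ℝ))‖ * ‖ft F ξ‖ * ‖W N Q a P ((ξ.val : ℝ) / (M : ℝ))‖ =
          (‖dk V ((ξ.val : ℝ) / (M : ℝ))‖ * ‖W N Q a P ((ξ.val : ℝ) / (M : ℝ))‖) * ‖ft F ξ‖ := by
        ring
      rw [h6, mul_pow]
      exact mul_le_mul_of_nonneg_right (pow_le_pow_left₀ (by positivity) h5 2) (by positivity)
    refine (sum_le_sum fun ξ _ => h2 ξ).trans ?_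
    rw [← mul_sum]
    have h3 := sum_ft_sq_le_one hF
    have h4 : (0 : ℝ) ≤ (1 / (R : ℝ)) ^ 2 := by positivity
    calc (1 / (R : ℝ)) ^ 2 * ∑ ξ, ‖ft F ξ‖ ^ 2 ≤ (1 / (R : ℝ)) ^ 2 * 1 :=
          mul_le_mul_of_nonneg_left h3 h4
      _ = 1 / (R : ℝ) ^ 2 := by rw [mul_one, div_pow, one_pow]
  have hfin : n2 (fun x : ZMod M => tv N (fun m => e m * F (x + pz M P m))) ≤
      2 * n2 G + 2 * η ^ 2 := by
    unfold n2
    have h1 : avr (fun x : ZMod M => ‖tv N (fun m => e m * F (x + pz M P m))‖ ^ 2) ≤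
        avr (fun x : ZMod M => 2 * ‖G x‖ ^ 2 + 2 * η ^ 2) := avr_mono hpt
    refine h1.trans (le_of_eq ?_)
    rw [avr_add, avr_mul_left, avr_const]
  have h9 : 2 * n2 G ≤ 2 / (R : ℝ) ^ 2 := by
    have : 2 * n2 G ≤ 2 * (1 / (R : ℝ) ^ 2) := mul_le_mul_of_nonneg_left hn2 (by norm_num)
    refine this.trans (le_of_eq ?_)
    ring
  linarith

open EquiAux

theorem equi {n : ℕ} {P : Fin n → ℤ[X]} {e : Fin n → ℕ} {i₀ : Fin n} (h : GDeg P e i₀) :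
    ∃ C : ℕ, ∀ (M Q : ℕ) [NeZero M] [NeZero Q] (hQ : Q ∣ M) (N R V : ℕ) (η : ℝ), 2 ≤ R → R ^ C ≤ N → R ^ C ≤ V →
      Q * R ^ C ≤ N → Q * R ^ C ≤ V → ∀ (G : Fin n → ZMod M → ℂ), (∀ l x, ‖G l x‖ ≤ 2) → ∀ κ : Fin n → ℝ,
      (∀ l, Slow Q (κ l) (G l)) → ∑ l, κ l * ((V : ℝ) / Q + 1) ≤ η → ∀ ρ : ZMod Q,
      n2 (fun x : ZMod M => PA hQ N P i₀ G x ρ - tv N (fun m => ZZ hQ P G (x + pz M (P i₀) m) ρ)) ≤
        (Q : ℝ) ^ 2 * 4 ^ n * (2 / (R : ℝ) ^ 2 + 2 * η ^ 2) := by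
  obtain ⟨C, hC⟩ := weyl_slow (P i₀).natDegree ((h.pos i₀).trans (h.le i₀)) (P i₀) rfl
  refine ⟨C, ?_⟩
  intro M Q _ _ hQ N R V η hR hN hV hQN hQV G hG κ hκ hη ρ
  have hQ1 : 1 ≤ Q := Nat.one_le_iff_ne_zero.mpr (NeZero.ne Q)
  have hη0 : 0 ≤ η := by
    refine le_trans (Finset.sum_nonneg (fun l _ => ?_)) hη
    exact mul_nonneg (kappa_nonneg (hκ l)) (by positivity)
  have h1 : (fun x : ZMod M => PA hQ N P i₀ G x ρ - tv N (fun m => ZZ hQ P G (x + pz M (P i₀) m) ρ)) =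
      fun x : ZMod M => ∑ ξ ∈ (univ : Finset (ZMod Q)).erase 0, 2 ^ n *
        tv N (fun m => ex ((ξ.val : ℝ) * (m : ℝ) / (Q : ℝ)) * FF hQ P G ρ ξ (x + pz M (P i₀) m)) :=
    funext (fun x => diff_eq hQ N P i₀ G ρ x)
  rw [h1]
  refine (n2_sum_le _ _).trans ?_
  have hB : (0 : ℝ) ≤ 4 ^ n * (2 / (R : ℝ) ^ 2 + 2 * η ^ 2) := by positivity
  have h2 : ∀ ξ ∈ (univ : Finset (ZMod Q)).erase 0, n2 (fun x : ZMod M => (2 : ℂ) ^ n *
        tv N (fun m => ex ((ξ.val : ℝ) * (m : ℝ) / (Q : ℝ)) * FF hQ P G ρ ξ (x + pz M (P i₀) m))) ≤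
        4 ^ n * (2 / (R : ℝ) ^ 2 + 2 * η ^ 2) := by
    intro ξ hξ
    have hξ0 : ξ ≠ 0 := (Finset.mem_erase.mp hξ).1
    have hnd : ¬ Q ∣ ξ.val := by
      intro hd
      have h3 : ξ.val = 0 := Nat.eq_zero_of_dvd_of_lt hd (ZMod.val_lt ξ)
      exact hξ0 ((ZMod.val_eq_zero ξ).mp h3)
    rw [n2_mul_left]
    have h4 : ‖(2 : ℂ) ^ n‖ ^ 2 = 4 ^ n := by
      rw [norm_pow, Complex.norm_ofNat, ← pow_mul, mul_comm n 2, pow_mul]
      norm_num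
    rw [h4]
    refine mul_le_mul_of_nonneg_left ?_ (by positivity)
    exact hC M N R V Q ξ.val η (FF hQ P G ρ ξ) hR hN hV hQ1 hQN hQV hnd hη0 (FF_bd hQ P G hG ρ ξ)
      (fun y v hv => (FF_slow hQ P G hG κ hκ ρ ξ y v V hv).trans hη)
  have hcard : (((univ : Finset (ZMod Q)).erase 0).card : ℝ) ≤ Q := by
    have : ((univ : Finset (ZMod Q)).erase 0).card ≤ Q := by
      refine (Finset.card_erase_le).trans ?_
      rw [Finset.card_univ, ZMod.card]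
    exact_mod_cast this
  have h5 : ∑ ξ ∈ (univ : Finset (ZMod Q)).erase 0, n2 (fun x : ZMod M => (2 : ℂ) ^ n *
        tv N (fun m => ex ((ξ.val : ℝ) * (m : ℝ) / (Q : ℝ)) * FF hQ P G ρ ξ (x + pz M (P i₀) m))) ≤
        (Q : ℝ) * (4 ^ n * (2 / (R : ℝ) ^ 2 + 2 * η ^ 2)) := by
    refine (Finset.sum_le_card_nsmul _ _ _ h2).trans ?_
    rw [nsmul_eq_mul]
    exact mul_le_mul_of_nonneg_right hcard hB
  have h6 : (0 : ℝ) ≤ ∑ ξ ∈ (univ : Finset (ZMod Q)).erase 0, n2 (fun x : ZMod M => (2 : ℂ) ^ n *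
        tv N (fun m => ex ((ξ.val : ℝ) * (m : ℝ) / (Q : ℝ)) * FF hQ P G ρ ξ (x + pz M (P i₀) m))) :=
    Finset.sum_nonneg (fun ξ _ => n2_nonneg _)
  calc (((univ : Finset (ZMod Q)).erase 0).card : ℝ) * _
      ≤ (Q : ℝ) * ((Q : ℝ) * (4 ^ n * (2 / (R : ℝ) ^ 2 + 2 * η ^ 2))) :=
        mul_le_mul hcard h5 h6 (Nat.cast_nonneg Q)
    _ = (Q : ℝ) ^ 2 * 4 ^ n * (2 / (R : ℝ) ^ 2 + 2 * η ^ 2) := by ring

/-- The same on the diagonal `ρ = red x`. -/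
theorem equi_diag {n : ℕ} {P : Fin n → ℤ[X]} {e : Fin n → ℕ} {i₀ : Fin n} (h : GDeg P e i₀) :
    ∃ C : ℕ, ∀ (M Q : ℕ) [NeZero M] [NeZero Q] (hQ : Q ∣ M) (N R V : ℕ) (η : ℝ), 2 ≤ R → R ^ C ≤ N → R ^ C ≤ V →
      Q * R ^ C ≤ N → Q * R ^ C ≤ V → ∀ (G : Fin n → ZMod M → ℂ), (∀ l x, ‖G l x‖ ≤ 2) → ∀ κ : Fin n → ℝ,
      (∀ l, Slow Q (κ l) (G l)) → ∑ l, κ l * ((V : ℝ) / Q + 1) ≤ η →
      n2 (fun x : ZMod M => PA hQ N P i₀ G x (red hQ x) -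
        tv N (fun m => ZZ hQ P G (x + pz M (P i₀) m) (red hQ x))) ≤
        (Q : ℝ) ^ 3 * 4 ^ n * (2 / (R : ℝ) ^ 2 + 2 * η ^ 2) := by
  obtain ⟨C, hC⟩ := equi h
  refine ⟨C, ?_⟩
  intro M Q _ _ hQ N R V η hR hN hV hQN hQV G hG κ hκ hη
  have h1 := hC M Q hQ N R V η hR hN hV hQN hQV G hG κ hκ hη
  have h2 : n2 (fun x : ZMod M => PA hQ N P i₀ G x (red hQ x) -
        tv N (fun m => ZZ hQ P G (x + pz M (P i₀) m) (red hQ x))) ≤
      ∑ ρ : ZMod Q, n2 (fun x : ZMod M => PA hQ N P i₀ G x ρ - tv N (fun m => ZZ hQ P G (x + pz M (P i₀) m) ρ)) := by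
    unfold n2
    rw [← avr_sum]
    refine avr_mono (fun x => ?_)
    exact Finset.single_le_sum (f := fun ρ : ZMod Q =>
      ‖PA hQ N P i₀ G x ρ - tv N (fun m => ZZ hQ P G (x + pz M (P i₀) m) ρ)‖ ^ 2)
      (fun ρ _ => by positivity) (Finset.mem_univ (red hQ x))
  refine h2.trans ((Finset.sum_le_card_nsmul _ _ _ (fun ρ _ => h1 ρ)).trans ?_)
  rw [nsmul_eq_mul, Finset.card_univ, ZMod.card]
  exact le_of_eq (by ring)


section group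

variable {M Q : ℕ} [NeZero M] [NeZero Q]

theorem PA_near {n : ℕ} {P : Fin n → ℤ[X]} {e : Fin n → ℕ} {i₀ : Fin n} (h : GDeg P e i₀) :
    ∃ b : ℕ, ∀ (M Q : ℕ) [NeZero M] [NeZero Q] (hQ : Q ∣ M) (N : ℕ), 1 ≤ N → ∀ (G : Fin n → ZMod M → ℂ),
      (∀ l x, ‖G l x‖ ≤ 2) → ∀ κ : Fin n → ℝ, (∀ l, Slow Q (κ l) (G l)) → ∀ x : ZMod M,
      ‖AA N P G x - PA hQ N P i₀ G x (red hQ x)‖ ≤
        2 ^ n * ∑ l, κ l * ((b : ℝ) * (N : ℝ) ^ e l / Q + 2) := by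
  refine ⟨∑ l, ∑ i ∈ range (e l + 1), ((P l - P i₀).coeff i).natAbs, ?_⟩
  intro M Q _ _ hQ N hN G hG κ hκ x
  have hQ0 : (0 : ℝ) < Q := Nat.cast_pos.mpr (Nat.pos_of_ne_zero (NeZero.ne Q))
  unfold AA PA
  rw [← tv_sub]
  have hκ0 : ∀ l, 0 ≤ κ l := fun l => ProfAux.slow_nonneg (hκ l)
  have hnn : ∀ l, 0 ≤ κ l * (((∑ l, ∑ i ∈ range (e l + 1), ((P l - P i₀).coeff i).natAbs : ℕ) : ℝ) *
      (N : ℝ) ^ e l / Q + 2) := fun l => mul_nonneg (hκ0 l) (by positivity)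
  refine (norm_tv_le _ _).trans (tvr_le N (mul_nonneg (by positivity) (Finset.sum_nonneg (fun l _ => hnn l))) ?_)
  intro m hm
  have hp : ∀ l z σ, ‖pf hQ (G l) z σ‖ ≤ 2 := fun l z σ => hG l _
  refine (ProfAux.prod_sub_le univ _ _ (fun l => hG l (x + pz M (P l) m))
    (fun l => hp l (x + pz M (P i₀) m) (red hQ x + pz Q (P l) m))).trans ?_
  rw [Finset.card_univ, Fintype.card_fin]
  refine mul_le_mul_of_nonneg_left (Finset.sum_le_sum (fun l _ => ?_)) (by positivity)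
  have e1 : x + pz M (P l) m = (x + pz M (P i₀) m) + (((P l - P i₀).eval (m : ℤ) : ℤ) : ZMod M) := by
    unfold pz
    rw [Polynomial.eval_sub, Int.cast_sub]
    ring
  have e2 : red hQ x + pz Q (P l) m =
      red hQ (x + pz M (P i₀) m) + (((P l - P i₀).eval (m : ℤ) : ℤ) : ZMod Q) := by
    rw [map_add, red_pz]
    unfold pz
    rw [Polynomial.eval_sub, Int.cast_sub]
    ring
  rw [e1, e2]
  refine (eq_pf hQ (hκ l) _ _).trans (mul_le_mul_of_nonneg_left ?_ (hκ0 l))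
  have h1 := ProfAux.eval_le (P l - P i₀) (h.base l) hN hm
  have h2 : ((∑ i ∈ range (e l + 1), ((P l - P i₀).coeff i).natAbs : ℕ) : ℝ) ≤
      ((∑ l, ∑ i ∈ range (e l + 1), ((P l - P i₀).coeff i).natAbs : ℕ) : ℝ) := by
    exact_mod_cast Finset.single_le_sum
      (f := fun l => ∑ i ∈ range (e l + 1), ((P l - P i₀).coeff i).natAbs) (fun _ _ => Nat.zero_le _)
      (Finset.mem_univ l)
  have h3 : (0 : ℝ) ≤ (N : ℝ) ^ e l := by positivity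
  have h4 : |(((P l - P i₀).eval (m : ℤ) : ℤ) : ℝ)| ≤
      ((∑ l, ∑ i ∈ range (e l + 1), ((P l - P i₀).coeff i).natAbs : ℕ) : ℝ) * (N : ℝ) ^ e l :=
    h1.trans (mul_le_mul_of_nonneg_right h2 h3)
  have h5 := div_le_div_of_nonneg_right h4 hQ0.le
  linarith

end group

end Pool.Agent.EQD.Lo.G
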