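import Pool.Agent.Lib.EQG.GL2f
import Pool.Agent.Lib.EQD.FibB

/-!
# LowG: the maximal gain on the fibre (fork of `EQD/FibA`, `EQD/FibB`)
-/

set_option autoImplicit false

open Finset Polynomial

namespace Pool.Agent.EQD.Lo.G

open Pool.Agent.HLT Pool.Agent.NLT Pool.Agent.NLG
open Pool.Agent.EQD.G (GDeg MidG LowG Sw)

/-- `Q` terms or `Q / q` terms of an average over `q (ZMod Q)`. -/
lemma tv_period_div {Q : ℕ} [NeZero Q] (q g q' : ℕ) (F : ZMod Q → ℂ) (y : ZMod Q) (hq : q ∣ Q) (hq0 : 0 < q)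
    (hg : g = Q / q) : tv Q (fun i => F (y + ((q * i : ℕ) : ZMod Q))) = tv g (fun i => F (y + ((q * i : ℕ) : ZMod Q))) := by
  have hgq : q * g = Q := by rw [hg]; exact Nat.mul_div_cancel' hq
  have hQ0 : Q ≠ 0 := NeZero.ne Q
  have hg0 : g ≠ 0 := by
    rintro h0
    rw [h0, mul_zero] at hgq
    exact hQ0 hgq.symm
  have hper : ∀ k i : ℕ, F (y + ((q * (g * k + i) : ℕ) : ZMod Q)) = F (y + ((q * i : ℕ) : ZMod Q)) := by
    intro k i
    congr 1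
    have h1 : q * (g * k + i) = Q * k + q * i := by
      rw [Nat.mul_add, ← Nat.mul_assoc, hgq]
    rw [h1, Nat.cast_add, Nat.cast_mul Q k, ZMod.natCast_self, zero_mul, zero_add]
  have hsum : ∀ k : ℕ, ∑ i ∈ range (g * k), F (y + ((q * i : ℕ) : ZMod Q)) =
      k * ∑ i ∈ range g, F (y + ((q * i : ℕ) : ZMod Q)) := by
    intro k
    induction k with
    | zero => simp
    | succ k ih =>
      rw [Nat.mul_succ, Finset.sum_range_add, ih]
      have h2 : ∑ i ∈ range g, F (y + ((q * (g * k + i) : ℕ) : ZMod Q)) =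
          ∑ i ∈ range g, F (y + ((q * i : ℕ) : ZMod Q)) := Finset.sum_congr rfl (fun i _ => hper k i)
      rw [h2]
      push_cast
      ring
  have hQg : Q = g * q := by rw [mul_comm]; exact hgq.symm
  have h3 := hsum q
  rw [← hQg] at h3
  unfold tv
  rw [h3]
  have hQc : (Q : ℂ) = g * q := by rw [← Nat.cast_mul, ← hQg]
  have hgc : (g : ℂ) ≠ 0 := by exact_mod_cast hg0
  have hqc : (q : ℂ) ≠ 0 := by exact_mod_cast hq0.ne'
  rw [hQc, mul_comm (g : ℂ) q, mul_div_mul_left _ _ hqc]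

theorem fib_gain {n : ℕ} {P : Fin n → ℤ[X]} {e : Fin n → ℕ} {i₀ : Fin n} (h : GDeg P e i₀) :
    ∃ C : ℕ, ∀ (Q q R : ℕ) [NeZero Q], 2 ≤ R → q ∣ Q → (∀ r, 1 ≤ r → r ≤ R ^ C → r ∣ q) →
      ∀ (i : Fin n) (v : Fin n → ZMod Q → ℂ), (∀ l, Bd (v l)) →
      n2 (AA Q P (hyb v (fun l => Eb q (Q / q) (v l)) i)) ≤ (C : ℝ) / R := by
  obtain ⟨C₀, -, hC⟩ := Pool.Agent.EQD.G.l2fib h
  refine ⟨C₀, ?_⟩
  intro Q q R _ hR hqQ hq i v hv
  have hQ0 : 0 < Q := NeZero.pos Q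
  have hq0 : 0 < q := Nat.pos_of_dvd_of_pos hqQ hQ0
  have hg : 0 < Q / q := Nat.div_pos (Nat.le_of_dvd hQ0 hqQ) hq0
  -- the average over `q (ZMod Q)`: `Q` terms or `Q / q` terms
  have hEb : ∀ (F : ZMod Q → ℂ) (y : ZMod Q), Eb q Q F y = Eb q (Q / q) F y := by
    intro F y
    unfold Eb
    exact tv_period_div q (Q / q) q F y hqQ hq0 rfl
  set g : Fin n → ZMod Q → ℂ := fun l x => if l < i then v l x else Eb q (Q / q) (v l) x with hgd
  have hBd : ∀ l, Bd (g l) := by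
    intro l x
    rw [hgd]
    dsimp only
    split_ifs
    · exact hv l x
    · exact Bd_Eb q (Q / q) (hv l) x
  have key := (hC Q R q hR hqQ hq i g hBd (v i)).1
  have hfam : hyb v (fun l => Eb q (Q / q) (v l)) i =
      Function.update g i (fun y => v i y - Eb q Q (v i) y) := by
    funext l x
    unfold hyb
    by_cases hl : l = i
    · subst hl
      rw [Function.update_self, if_neg (lt_irrefl _), if_pos rfl, hEb]
    · rw [Function.update_of_ne hl, if_neg hl]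
  rw [hfam]
  refine key.trans ?_
  have hR0 : (0 : ℝ) < R := by exact_mod_cast (by omega : 0 < R)
  refine div_le_div_of_nonneg_right ?_ hR0.le
  have h1 : n2 (v i) ≤ 1 := avr_le fun x => pow_le_one₀ (norm_nonneg _) (hv i x)
  have h2 : (0 : ℝ) ≤ (C₀ : ℝ) := Nat.cast_nonneg _
  calc (C₀ : ℝ) * n2 (v i) ≤ C₀ * 1 := mul_le_mul_of_nonneg_left h1 h2
    _ = C₀ := mul_one _

open FibBAux

theorem fibmax {n : ℕ} {P : Fin n → ℤ[X]} {e : Fin n → ℕ} {i₀ : Fin n} (h : GDeg P e i₀) :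
    ∃ C : ℕ, ∀ (Q q R : ℕ) [NeZero Q], 2 ≤ R → q ∣ Q → (∀ r, 1 ≤ r → r ≤ R ^ C → r ∣ q) →
      ∀ (i : Fin n) (a b : ℕ) (v : ℕ → Fin n → ZMod Q → ℂ), (∀ j l, Bd (v j l)) →
      ∀ (ev : Fin n → ℕ → Finset (ZMod Q)) (η : ℝ), 0 ≤ η →
      (∀ (l : Fin n) (ρ : ZMod Q) (i' j' : ℕ), a ≤ i' → i' ≤ j' → j' ≤ b → (∀ k, i' < k → k ≤ j' → ρ ∉ ev l k) →
        ‖v j' l ρ - v i' l ρ‖ ≤ η) →
      avr (fun ρ : ZMod Q =>
        (fmax (Icc a b) (fun j => ‖AA Q P (hyb (v j) (fun l => Eb q (Q / q) (v j l)) i) ρ‖)) ^ 2) ≤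
        (C : ℝ) * ((1 + ∑ l, ∑ j ∈ Icc a b, ((ev l j).card : ℝ) / Q) / R + η ^ 2) := by
  classical
  obtain ⟨C₃, hC₃⟩ := fib_gain h
  choose Cl hCl using fun l : Fin n => fib_improve ((h.pos l).trans (h.le l)) (P l) rfl
  set C₁ : ℕ := ∑ l, Cl l with hC₁
  have hle : ∀ l, Cl l ≤ C₁ := fun l => single_le_sum (f := Cl) (fun _ _ => Nat.zero_le _) (mem_univ l)
  set K₃ : ℕ := 3 * C₃ + 12 * n ^ 2 * (2 ^ (n + 1)) ^ 2 * C₁ with hK₃
  set K₁ : ℕ := 3 * (2 ^ (n + 1) * n) ^ 2 with hK₁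
  refine ⟨(C₁ + 1) * C₃ + K₃ + K₁, ?_⟩
  intro Q q R _ hR hqQ hr i a b v hv ev η hη hev
  have hQ0 : 0 < Q := Nat.pos_of_ne_zero (NeZero.ne Q)
  have hQ1 : 1 ≤ Q := hQ0
  have hQr : (0 : ℝ) < Q := by exact_mod_cast hQ0
  have hR0 : (0 : ℝ) < R := by exact_mod_cast (by omega : 0 < R)
  have hR1 : (1 : ℝ) ≤ R := by exact_mod_cast (by omega : 1 ≤ R)
  set T : ℕ := R ^ C₁ with hT
  have hTpos : 0 < T := pow_pos (by omega) _
  have hTr : (0 : ℝ) < T := by exact_mod_cast hTpos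
  have hT1 : (1 : ℝ) ≤ T := by exact_mod_cast hTpos
  set w : ℕ → ℝ := fun j => ∑ l, ((ev l j).card : ℝ) / Q with hw
  have hw0 : ∀ j, 0 ≤ w j := fun j => sum_nonneg (fun l _ => by positivity)
  obtain ⟨m, cl, lo, hi, hm, hcl, hsum⟩ := classes a b w hw0 T
  set ν : ℝ := ∑ l, ∑ j ∈ Icc a b, ((ev l j).card : ℝ) / Q with hν
  have hνw : ∑ j ∈ Icc a b, w j = ν := by
    rw [hν, sum_comm]
  have hν0 : 0 ≤ ν := by
    rw [← hνw]
    exact sum_nonneg (fun j _ => hw0 j)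
  rw [hνw] at hm
  -- exceptional sets
  set Y : ℕ → Fin n → Finset (ZMod Q) := fun c l => (Ioc (lo c) (hi c)).biUnion (ev l) with hY
  have hYcard : ∀ c l, ((Y c l).card : ℝ) / Q ≤ 1 / T := by
    intro c l
    have h1 : ((Y c l).card : ℝ) ≤ ∑ k ∈ Ioc (lo c) (hi c), ((ev l k).card : ℝ) := by
      exact_mod_cast card_biUnion_le
    have h2 : ∑ k ∈ Ioc (lo c) (hi c), ((ev l k).card : ℝ) / Q ≤ ∑ k ∈ Ioc (lo c) (hi c), w k := by
      refine sum_le_sum (fun k _ => ?_)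
      exact single_le_sum (f := fun l => ((ev l k).card : ℝ) / Q) (fun _ _ => by positivity) (mem_univ l)
    have h3 : (∑ k ∈ Ioc (lo c) (hi c), w k) ≤ 1 / T := by
      rw [le_div_iff₀ hTr]
      exact hsum c
    rw [← sum_div] at h2
    exact ((div_le_div_of_nonneg_right h1 hQr.le).trans h2).trans h3
  have hYnat : ∀ c l, (Y c l).card * R ^ (Cl l) ≤ Q := by
    intro c l
    have h1 := hYcard c l
    rw [div_le_div_iff₀ hQr hTr, one_mul] at h1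
    have h2 : (Y c l).card * T ≤ Q := by exact_mod_cast h1
    refine le_trans (Nat.mul_le_mul_left _ ?_) h2
    exact Nat.pow_le_pow_right (by omega) (hle l)
  -- the hybrid functions
  set g : ℕ → Fin n → ZMod Q → ℂ := fun j => hyb (v j) (fun l => Eb q (Q / q) (v j l)) i with hg
  have hg2 : ∀ j l x, ‖g j l x‖ ≤ 2 := by
    intro j l x
    have h1 : ‖v j l x‖ ≤ 1 := hv j l x
    have h2 : ‖Eb q (Q / q) (v j l) x‖ ≤ 1 := Bd_Eb q (Q / q) (hv j l) x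
    simp only [hg, hyb]
    split_ifs
    · linarith
    · exact (norm_sub_le _ _).trans (by linarith)
    · linarith
  set u1 : ℕ → Fin n → ZMod Q → ℝ := fun c l y => if y ∈ Y c l then 1 else 0 with hu1
  have hu10 : ∀ c l y, 0 ≤ u1 c l y := by
    intro c l y
    simp only [hu1]
    split_ifs <;> norm_num
  have hEr0 : ∀ c l y, 0 ≤ Er q (Q / q) (u1 c l) y := fun c l y => tvr_nonneg _ (fun t => hu10 c l _)
  have hvd : ∀ j ∈ Icc a b, ∀ l x, ‖v j l x - v (lo (cl j)) l x‖ ≤ η + 2 * u1 (cl j) l x := by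
    intro j hj l x
    obtain ⟨-, h1, h2, h3, h4⟩ := hcl j hj
    by_cases hx : x ∈ Y (cl j) l
    · simp only [hu1, if_pos hx]
      have h5 : ‖v j l x‖ ≤ 1 := hv j l x
      have h6 : ‖v (lo (cl j)) l x‖ ≤ 1 := hv _ l x
      have h7 := norm_sub_le (v j l x) (v (lo (cl j)) l x)
      linarith
    · simp only [hu1, if_neg hx]
      rw [mul_zero, add_zero]
      refine hev l x (lo (cl j)) j h3 h1 (mem_Icc.mp hj).2 (fun k hk1 hk2 hk3 => hx ?_)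
      rw [hY]
      exact mem_biUnion.mpr ⟨k, mem_Ioc.mpr ⟨hk1, hk2.trans h2⟩, hk3⟩
  have hgd : ∀ j ∈ Icc a b, ∀ l x, ‖g j l x - g (lo (cl j)) l x‖ ≤
      2 * η + 2 * (u1 (cl j) l x + Er q (Q / q) (u1 (cl j) l) x) := by
    intro j hj l x
    have h1 := hvd j hj l x
    have h2 := Eb_diff q (Q / q) (v j l) (v (lo (cl j)) l) (Y (cl j) l) η hη (hvd j hj l) x
    have h3 := hu10 (cl j) l x
    have h4 := hEr0 (cl j) l x
    have h5 : Er q (Q / q) (fun y => if y ∈ Y (cl j) l then (1 : ℝ) else 0) x =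
      Er q (Q / q) (u1 (cl j) l) x := rfl
    rw [h5] at h2
    simp only [hg, hyb]
    split_ifs
    · linarith
    · rename_i h6
      have e1 : v j l x - Eb q (Q / q) (v j l) x - (v (lo (cl j)) l x - Eb q (Q / q) (v (lo (cl j)) l) x) =
        (v j l x - v (lo (cl j)) l x) - (Eb q (Q / q) (v j l) x - Eb q (Q / q) (v (lo (cl j)) l) x) := by ring
      rw [e1]
      exact (norm_sub_le _ _).trans (by linarith)
    · linarith
  -- pointwise bound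
  set X : ℕ → Fin n → ZMod Q → ℝ := fun c l => AR Q (P l) (u1 c l) with hX
  set Z : ℕ → Fin n → ZMod Q → ℝ := fun c l => AR Q (P l) (Er q (Q / q) (u1 c l)) with hZ
  set G : ℕ → ZMod Q → ℝ := fun c ρ => 3 * ‖AA Q P (g (lo c)) ρ‖ ^ 2 +
    (6 * n * (2 ^ (n + 1)) ^ 2) * ∑ l, (X c l ρ ^ 2 + Z c l ρ ^ 2) with hG
  have hG0 : ∀ c ρ, 0 ≤ G c ρ := fun c ρ => by
    simp only [hG]
    positivity
  have hpt : ∀ ρ : ZMod Q, (fmax (Icc a b) (fun j => ‖AA Q P (g j) ρ‖)) ^ 2 ≤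
      (K₁ : ℝ) * η ^ 2 + ∑ c ∈ range m, G c ρ := by
    intro ρ
    refine fmax_sq_le (add_nonneg (by positivity) (sum_nonneg (fun c _ => hG0 c ρ))) (fun j hj => ?_)
    obtain ⟨h0, -⟩ := hcl j hj
    have h1 := AA_diff Q P (g j) (g (lo (cl j))) _ (hg2 j) (hg2 _) (hgd j hj) ρ
    have h2 : ∀ l, AR Q (P l) (fun x => 2 * η + 2 * (u1 (cl j) l x + Er q (Q / q) (u1 (cl j) l) x)) ρ =
        2 * η + 2 * (X (cl j) l ρ + Z (cl j) l ρ) := fun l => AR_lin Q hQ1 (P l) η _ _ ρ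
    rw [sum_congr rfl (fun l _ => h2 l), sum_add_distrib, ← mul_sum, ← mul_sum, sum_const, card_univ,
      Fintype.card_fin, nsmul_eq_mul] at h1
    set Sg : ℝ := ∑ l, (X (cl j) l ρ + Z (cl j) l ρ) with hSg
    have h3 : ‖AA Q P (g j) ρ‖ ≤ ‖AA Q P (g (lo (cl j))) ρ‖ + (2 ^ (n + 1) * n) * η + 2 ^ (n + 1) * Sg := by
      refine h1.trans (le_of_eq ?_)
      rw [pow_succ]
      ring
    have h4 : ‖AA Q P (g j) ρ‖ ^ 2 ≤ (‖AA Q P (g (lo (cl j))) ρ‖ + (2 ^ (n + 1) * n) * η + 2 ^ (n + 1) * Sg) ^ 2 :=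
      pow_le_pow_left₀ (norm_nonneg _) h3 2
    have h5 := h4.trans (sq3 _ _ _)
    have h6 : Sg ^ 2 ≤ n * ∑ l, (X (cl j) l ρ + Z (cl j) l ρ) ^ 2 := by
      have := sq_sum_le_card_mul_sum_sq (s := (univ : Finset (Fin n))) (f := fun l => X (cl j) l ρ + Z (cl j) l ρ)
      rwa [card_univ, Fintype.card_fin] at this
    have h7 : ∑ l, (X (cl j) l ρ + Z (cl j) l ρ) ^ 2 ≤ 2 * ∑ l, (X (cl j) l ρ ^ 2 + Z (cl j) l ρ ^ 2) := by
      rw [mul_sum]
      refine sum_le_sum (fun l _ => ?_)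
      nlinarith [sq_nonneg (X (cl j) l ρ - Z (cl j) l ρ)]
    have h8 : Sg ^ 2 ≤ n * (2 * ∑ l, (X (cl j) l ρ ^ 2 + Z (cl j) l ρ ^ 2)) :=
      h6.trans (mul_le_mul_of_nonneg_left h7 (Nat.cast_nonneg n))
    have h9 : 3 * (2 ^ (n + 1) * Sg) ^ 2 ≤
        (6 * n * (2 ^ (n + 1)) ^ 2) * ∑ l, (X (cl j) l ρ ^ 2 + Z (cl j) l ρ ^ 2) := by
      have := mul_le_mul_of_nonneg_left h8 (by positivity : (0 : ℝ) ≤ 3 * (2 ^ (n + 1)) ^ 2)
      rw [mul_pow]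
      calc 3 * ((2 ^ (n + 1)) ^ 2 * Sg ^ 2) = 3 * (2 ^ (n + 1)) ^ 2 * Sg ^ 2 := by ring
        _ ≤ _ := this
        _ = _ := by ring
    have h10 : ‖AA Q P (g j) ρ‖ ^ 2 ≤ (K₁ : ℝ) * η ^ 2 + G (cl j) ρ := by
      have e2 : (K₁ : ℝ) * η ^ 2 = 3 * (2 ^ (n + 1) * n * η) ^ 2 := by
        rw [hK₁]
        push_cast
        ring
      rw [e2]
      simp only [hG]
      linarith
    refine h10.trans ?_
    have h11 : G (cl j) ρ ≤ ∑ c ∈ range m, G c ρ :=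
      single_le_sum (f := fun c => G c ρ) (fun c _ => hG0 c ρ) (mem_range.mpr h0)
    linarith
  -- averages
  have hX2 : ∀ c l, avr (fun ρ => X c l ρ ^ 2) ≤ (C₁ : ℝ) / (T * R) := by
    intro c l
    have h1 := hCl l Q R hR (Y c l) (hYnat c l)
    refine h1.trans ?_
    have h2 : (Cl l : ℝ) * (((Y c l).card : ℝ) / Q) ≤ C₁ * (1 / T) :=
      mul_le_mul (by exact_mod_cast hle l) (hYcard c l) (by positivity) (by positivity)
    calc (Cl l : ℝ) * (((Y c l).card : ℝ) / Q) / R ≤ C₁ * (1 / T) / R := div_le_div_of_nonneg_right h2 hR0.le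
      _ = (C₁ : ℝ) / (T * R) := by
        field_simp
  have hZ2 : ∀ c l, avr (fun ρ => Z c l ρ ^ 2) ≤ (C₁ : ℝ) / (T * R) := fun c l =>
    (avr_AR_Er Q q (Q / q) (P l) (u1 c l)).trans (hX2 c l)
  have hA2 : ∀ c, avr (fun ρ => ‖AA Q P (g (lo c)) ρ‖ ^ 2) ≤ (C₃ : ℝ) / (T * R) := by
    intro c
    have h1 : 2 ≤ R ^ (C₁ + 1) := by
      calc 2 ≤ R := hR
        _ = R ^ 1 := (pow_one R).symm
        _ ≤ R ^ (C₁ + 1) := Nat.pow_le_pow_right (by omega) (by omega)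
    have h2 : ∀ r, 1 ≤ r → r ≤ (R ^ (C₁ + 1)) ^ C₃ → r ∣ q := by
      intro r hr1 hr2
      refine hr r hr1 (hr2.trans ?_)
      rw [← pow_mul]
      exact Nat.pow_le_pow_right (by omega) (by omega)
    have h3 := hC₃ Q q (R ^ (C₁ + 1)) h1 hqQ h2 i (v (lo c)) (hv (lo c))
    refine h3.trans (le_of_eq ?_)
    rw [hT]
    push_cast
    rw [pow_succ]
  have hGav : ∀ c, avr (G c) ≤ (K₃ : ℝ) / (T * R) := by
    intro c
    have e3 : avr (G c) = 3 * avr (fun ρ => ‖AA Q P (g (lo c)) ρ‖ ^ 2) +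
        (6 * n * (2 ^ (n + 1)) ^ 2) * ∑ l, (avr (fun ρ => X c l ρ ^ 2) + avr (fun ρ => Z c l ρ ^ 2)) := by
      simp only [hG]
      rw [avr_add, avr_mul_left, avr_mul_left, avr_sum]
      congr 2
      refine sum_congr rfl (fun l _ => ?_)
      rw [avr_add]
    rw [e3]
    have h1 : ∑ l, (avr (fun ρ => X c l ρ ^ 2) + avr (fun ρ => Z c l ρ ^ 2)) ≤ n * (2 * ((C₁ : ℝ) / (T * R))) := by
      refine (sum_le_sum (fun l _ => add_le_add (hX2 c l) (hZ2 c l))).trans (le_of_eq ?_)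
      rw [sum_const, card_univ, Fintype.card_fin, nsmul_eq_mul]
      ring
    have h2 := mul_le_mul_of_nonneg_left h1 (by positivity : (0 : ℝ) ≤ 6 * n * (2 ^ (n + 1)) ^ 2)
    have h3 := hA2 c
    have e4 : (K₃ : ℝ) / (T * R) = 3 * ((C₃ : ℝ) / (T * R)) +
        6 * n * (2 ^ (n + 1)) ^ 2 * (n * (2 * ((C₁ : ℝ) / (T * R)))) := by
      rw [hK₃]
      push_cast
      ring
    rw [e4]
    linarith
  have hfin : avr (fun ρ : ZMod Q => (fmax (Icc a b) (fun j => ‖AA Q P (g j) ρ‖)) ^ 2) ≤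
      (K₁ : ℝ) * η ^ 2 + m * ((K₃ : ℝ) / (T * R)) := by
    refine (avr_mono hpt).trans ?_
    rw [avr_add, avr_const, avr_sum]
    have h1 : ∑ c ∈ range m, avr (G c) ≤ m * ((K₃ : ℝ) / (T * R)) := by
      refine (sum_le_sum (fun c _ => hGav c)).trans (le_of_eq ?_)
      rw [sum_const, card_range, nsmul_eq_mul]
    linarith
  have h1 : (m : ℝ) * ((K₃ : ℝ) / (T * R)) ≤ K₃ * ((1 + ν) / R) := by
    have h2 : (m : ℝ) ≤ (1 + ν) * T := by
      refine hm.trans ?_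
      nlinarith
    calc (m : ℝ) * ((K₃ : ℝ) / (T * R)) ≤ ((1 + ν) * T) * ((K₃ : ℝ) / (T * R)) :=
          mul_le_mul_of_nonneg_right h2 (by positivity)
      _ = K₃ * ((1 + ν) / R) := by
        field_simp
  have h3 : 0 ≤ (1 + ν) / R := div_nonneg (by linarith) hR0.le
  have h4 : 0 ≤ η ^ 2 := sq_nonneg η
  have h5 : (0 : ℝ) ≤ ((C₁ + 1) * C₃ : ℕ) := Nat.cast_nonneg _
  have h6 : (0 : ℝ) ≤ K₃ := Nat.cast_nonneg _
  have h7 : (0 : ℝ) ≤ K₁ := Nat.cast_nonneg _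
  refine hfin.trans ((fin_ineq _ _ _ _ _ _ h5 h6 h7 h3 h4 h1).trans (le_of_eq ?_))
  rw [Nat.cast_add ((C₁ + 1) * C₃ + K₃) K₁, Nat.cast_add ((C₁ + 1) * C₃) K₃]


end Pool.Agent.EQD.Lo.G
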