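import Pool.Agent.Lib.EQG.Lo.Zs
import Pool.Agent.Lib.EQG.Lo.Eq
import Pool.Agent.Lib.EQD.T1b

/-!
# LowG: one level with long widths (fork of `EQD/T1b`)
-/

set_option autoImplicit false

open Finset Polynomial

namespace Pool.Agent.EQD.Lo.G

open Pool.Agent.HLT Pool.Agent.NLT Pool.Agent.NLG
open Pool.Agent.EQD.G (GDeg MidG LowG Sw)

open T1bAux

theorem levelB {n : ℕ} {P : Fin n → ℤ[X]} {e : Fin n → ℕ} {i₀ : Fin n} (h : GDeg P e i₀) (B : ℕ) (hB : 1 ≤ B) :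
    ∃ C t₁ : ℕ, 1 ≤ C ∧ ∀ t, t₁ ≤ t → ∀ a b : ℕ, 4 ^ (t + 1) ≤ a → ∃ M₀ : ℕ, 1 ≤ M₀ ∧ ∀ (M : ℕ) [NeZero M], M₀ ∣ M →
      ∀ N : ℕ → ℕ, Sc N → ∀ f : Fin n → ZMod M → ℂ, (∀ l, Bd (f l)) → ∀ i : Fin n,
      MaxLe (Icc a b) (fun j x =>
        AA (N j) P (hyb (fun l => Eb (QB B (t + 1)) (Klong B t (N j) (e l)) (f l))
          (fun l => Eb (QB B t) (QB B (t + 1) / QB B t) (Eb (QB B (t + 1)) (Klong B t (N j) (e l)) (f l))) i) x)
        ((C : ℝ) / 2 ^ (t / C)) := by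
  obtain ⟨D, hD⟩ : ∃ D : ℕ, ∀ l, e l ≤ D :=
    ⟨∑ l, e l, fun l => Finset.single_le_sum (f := e) (fun _ _ => Nat.zero_le _) (mem_univ l)⟩
  obtain ⟨b', hb'⟩ := PA_near h
  obtain ⟨C₂, hC₂⟩ := equi_diag h
  obtain ⟨C₃, hC₃0, hC₃⟩ := maxZ (P i₀)
  obtain ⟨C₄, hC₄⟩ := zstar h
  set c : ℕ := 4 * C₂ + 4 with hc
  obtain ⟨tA, htA⟩ := QB_small (6 * c) B
  set a₁ : ℝ := 2 ^ n * ((n : ℝ) * (4 * (b' : ℝ) + 8)) with ha₁
  set a₂ : ℝ := 4 ^ n * (2 + 128 * (n : ℝ) ^ 2) * (2 * (c : ℝ)) with ha₂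
  set a₃ : ℝ := C₃ * ((C₄ : ℝ) + (2 ^ n * ((n : ℝ) * 8)) ^ 2) with ha₃
  have ha₁0 : 0 ≤ a₁ := by positivity
  have ha₂0 : 0 ≤ a₂ := by positivity
  have ha₃0 : 0 ≤ a₃ := by positivity
  refine ⟨C₄ + 1 + ⌈4 * a₁ ^ 2 + 4 * a₂ + 2 * a₃⌉₊, max tA (max c (C₄ + 1)) + 1, by omega, ?_⟩
  intro t ht a b ha
  have htA' : tA ≤ t := by
    have := le_max_left tA (max c (C₄ + 1)); omega
  have htc : c ≤ t := by
    have h1 := le_max_right tA (max c (C₄ + 1))
    have h2 := le_max_left c (C₄ + 1)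
    omega
  have ht4 : C₄ + 1 ≤ t := by
    have h1 := le_max_right tA (max c (C₄ + 1))
    have h2 := le_max_right c (C₄ + 1)
    omega
  set Q : ℕ := QB B (t + 1) with hQdef
  set q : ℕ := QB B t with hqdef
  have hQpos : 1 ≤ Q := QB_pos B (t + 1)
  have : NeZero Q := ⟨by omega⟩
  have hqQ : q ∣ Q := QB_dvd B (Nat.le_succ t)
  have hQA : ∀ j, a ≤ j → Q ^ (6 * c) ≤ 2 ^ j := fun j hj => htA t htA' j (ha.trans hj)
  have hta : t * c ≤ a := by
    calc t * c ≤ t * t := Nat.mul_le_mul_left t htc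
      _ ≤ 2 ^ t * 2 ^ t := Nat.mul_le_mul Nat.lt_two_pow_self.le Nat.lt_two_pow_self.le
      _ = 4 ^ t := by rw [← mul_pow]; norm_num
      _ ≤ 4 ^ (t + 1) := Nat.pow_le_pow_right (by norm_num) (Nat.le_succ t)
      _ ≤ a := ha
  have hr1 : ∀ j, a ≤ j → 1 ≤ j / c := by
    intro j hj
    rw [Nat.le_div_iff_mul_le (by omega)]
    have h1 : 1 * c ≤ t * c := Nat.mul_le_mul_right c (by omega)
    omega
  have hQ3 : ∀ j, a ≤ j → Q ^ 3 ≤ 2 ^ (j / c) := by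
    intro j hj
    exact Q_small (by omega) (hr1 j hj) (Nat.lt_mul_div_succ j (by omega)) (hQA j hj)
  have hQle : ∀ j, a ≤ j → Q ≤ 2 ^ (j / c) := fun j hj =>
    (Nat.le_self_pow (by norm_num) Q).trans (hQ3 j hj)
  have hQj : ∀ j, a ≤ j → Q ≤ 2 ^ j := fun j hj =>
    (hQle j hj).trans (Nat.pow_le_pow_right (by norm_num) (Nat.div_le_self j c))
  set L : ℕ := (b + 1) * D + t + 1 with hL
  refine ⟨Q * 2 ^ L, Nat.mul_pos hQpos (by positivity), ?_⟩
  intro M _ hM N hN f hf i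
  have hQM : Q ∣ M := (Dvd.intro _ rfl).trans hM
  have hN1 : ∀ j, 1 ≤ N j := fun j => (Nat.one_le_two_pow).trans (hN j).1
  -- the functions
  set G : ℕ → Fin n → ZMod M → ℂ := fun j => hyb (fun l => Eb Q (Klong B t (N j) (e l)) (f l))
    (fun l => Eb q (Q / q) (Eb Q (Klong B t (N j) (e l)) (f l))) i with hG
  have hG2 : ∀ j l x, ‖G j l x‖ ≤ 2 := fun j l x =>
    norm_hyb q (Q / q) (fun l => Klong B t (N j) (e l)) f hf i l x
  have hGs : ∀ j l, Slow Q (4 / (Klong B t (N j) (e l) : ℝ)) (G j l) := fun j l =>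
    slow_hyb q (Q / q) (fun l => Klong B t (N j) (e l)) (fun l => Klong_pos B t (N j) (e l)) f hf i l
  have hκ : ∀ j l, (4 : ℝ) / (Klong B t (N j) (e l) : ℝ) ≤ 4 * (Q : ℝ) / (2 ^ j * 2 ^ t) := fun j l =>
    kap1 B t j (N j) (e l) (h.pos l) (hN j).1
  have hκ0 : ∀ j l, (0 : ℝ) ≤ 4 / (Klong B t (N j) (e l) : ℝ) := fun j l => by positivity
  have hQr : (1 : ℝ) ≤ Q := by exact_mod_cast hQpos
  have hκt : ∀ j, a ≤ j → ∀ l, (4 : ℝ) / (Klong B t (N j) (e l) : ℝ) ≤ 4 / 2 ^ t := by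
    intro j hj l
    refine (hκ j l).trans ?_
    have h1 : (Q : ℝ) ≤ 2 ^ j := by exact_mod_cast hQj j hj
    rw [div_le_div_iff₀ (by positivity) (by positivity)]
    have h2 : (0 : ℝ) < 2 ^ t := by positivity
    nlinarith
  -- the three parts
  have hT1 : MaxLe (Icc a b) (fun j x => AA (N j) P (G j) x - PA hQM (N j) P i₀ (G j) x (red hQM x))
      (a₁ ^ 2 / 2 ^ t) := by
    refine MaxLe.of_bound (η := a₁ / 2 ^ t) (by positivity) (fun j hj x => ?_) ?_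
    · have hja : a ≤ j := (mem_Icc.1 hj).1
      refine (hb' M Q hQM (N j) (hN1 j) (G j) (hG2 j) _ (hGs j) x).trans ?_
      rw [ha₁, mul_div_assoc]
      refine mul_le_mul_of_nonneg_left ?_ (by positivity)
      have h1 : ∀ l ∈ (univ : Finset (Fin n)), (4 : ℝ) / (Klong B t (N j) (e l) : ℝ) *
          ((b' : ℝ) * (N j : ℝ) ^ e l / Q + 2) ≤ (4 * (b' : ℝ) + 8) / 2 ^ t := by
        intro l _
        have h2 := kap2 B t (N j) (e l) (hN1 j)
        have h3 := hκt j hja l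
        have h4 : (4 : ℝ) / (Klong B t (N j) (e l) : ℝ) * ((b' : ℝ) * (N j : ℝ) ^ e l / Q + 2) =
            (b' : ℝ) * (4 / (Klong B t (N j) (e l) : ℝ) * ((N j : ℝ) ^ e l / Q)) +
            2 * (4 / (Klong B t (N j) (e l) : ℝ)) := by ring
        rw [h4]
        have h5 : (4 * (b' : ℝ) + 8) / 2 ^ t = (b' : ℝ) * (4 / 2 ^ t) + 2 * (4 / 2 ^ t) := by ring
        rw [h5]
        exact add_le_add (mul_le_mul_of_nonneg_left h2 (Nat.cast_nonneg b')) (by linarith)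
      refine (sum_le_sum h1).trans (le_of_eq ?_)
      rw [sum_const, card_univ, Fintype.card_fin, nsmul_eq_mul]
      ring
    · rw [div_pow]
      apply div_le_div_of_nonneg_left (by positivity) (by positivity)
      have h1 : (1 : ℝ) ≤ 2 ^ t := one_le_pow₀ (by norm_num)
      nlinarith
  have hT2 : MaxLe (Icc a b) (fun j x => PA hQM (N j) P i₀ (G j) x (red hQM x) -
      tv (N j) (fun m => ZZ hQM P (G j) (x + pz M (P i₀) m) (red hQM x))) (a₂ / 2 ^ t) := by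
    refine MaxLe.of_sum ?_
    have h1 : ∀ j ∈ Icc a b, n2 (fun x : ZMod M => PA hQM (N j) P i₀ (G j) x (red hQM x) -
        tv (N j) (fun m => ZZ hQM P (G j) (x + pz M (P i₀) m) (red hQM x))) ≤
        4 ^ n * (2 + 128 * (n : ℝ) ^ 2) * (1 / 2 ^ (j / c)) := by
      intro j hj
      have hja : a ≤ j := (mem_Icc.1 hj).1
      set r : ℕ := j / c with hr
      have hr1' : 1 ≤ r := hr1 j hja
      have hr4 : (C₂ + 1) * r ≤ j / 4 := by
        rw [Nat.le_div_iff_mul_le (by norm_num)]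
        have h2 : r * c ≤ j := Nat.div_mul_le_self j c
        have h3 : (C₂ + 1) * r * 4 = r * c := by rw [hc]; ring
        omega
      have hrC : C₂ * r ≤ j / 4 := le_trans (Nat.mul_le_mul_right r (Nat.le_succ C₂)) hr4
      have hrj : r ≤ j / 4 := le_trans (Nat.le_mul_of_pos_left r (Nat.succ_pos C₂)) hr4
      have hRC : (2 ^ r) ^ C₂ ≤ 2 ^ (j / 4) := by
        rw [← pow_mul, mul_comm]
        exact Nat.pow_le_pow_right (by norm_num) hrC
      have h2R : 2 ≤ 2 ^ r := by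
        calc 2 = 2 ^ 1 := by norm_num
          _ ≤ 2 ^ r := Nat.pow_le_pow_right (by norm_num) hr1'
      have hj4 : (2 : ℕ) ^ (j / 4) ≤ 2 ^ j := Nat.pow_le_pow_right (by norm_num) (Nat.div_le_self j 4)
      have hQRV : Q * (2 ^ r) ^ C₂ ≤ 2 ^ (j / 4) := by
        calc Q * (2 ^ r) ^ C₂ ≤ 2 ^ r * (2 ^ r) ^ C₂ := Nat.mul_le_mul_right _ (hQle j hja)
          _ = 2 ^ ((C₂ + 1) * r) := by rw [← pow_succ', ← pow_mul]; ring_nf
          _ ≤ 2 ^ (j / 4) := Nat.pow_le_pow_right (by norm_num) hr4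
      have hη : ∑ l, (4 : ℝ) / (Klong B t (N j) (e l) : ℝ) * (((2 ^ (j / 4) : ℕ) : ℝ) / Q + 1) ≤
          (n : ℝ) * (8 * Q * 2 ^ (j / 4) / 2 ^ j) := by
        have h3 : ∀ l ∈ (univ : Finset (Fin n)), (4 : ℝ) / (Klong B t (N j) (e l) : ℝ) *
            (((2 ^ (j / 4) : ℕ) : ℝ) / Q + 1) ≤ 8 * Q * 2 ^ (j / 4) / 2 ^ j := by
          intro l _
          have h4 : (4 : ℝ) / (Klong B t (N j) (e l) : ℝ) ≤ 4 * Q / 2 ^ j := by
            refine (hκ j l).trans ?_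
            apply div_le_div_of_nonneg_left (by positivity) (by positivity)
            have : (1 : ℝ) ≤ 2 ^ t := one_le_pow₀ (by norm_num)
            have h6 : (0 : ℝ) < 2 ^ j := by positivity
            nlinarith
          have h5 : ((2 ^ (j / 4) : ℕ) : ℝ) / Q + 1 ≤ 2 * 2 ^ (j / 4) := by
            have h6 : ((2 ^ (j / 4) : ℕ) : ℝ) / Q ≤ 2 ^ (j / 4) := by
              push_cast
              exact div_le_self (by positivity) hQr
            have h7 : (1 : ℝ) ≤ 2 ^ (j / 4) := one_le_pow₀ (by norm_num)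
            linarith
          calc (4 : ℝ) / (Klong B t (N j) (e l) : ℝ) * (((2 ^ (j / 4) : ℕ) : ℝ) / Q + 1)
              ≤ (4 * Q / 2 ^ j) * (2 * 2 ^ (j / 4)) := mul_le_mul h4 h5 (by positivity) (by positivity)
            _ = 8 * Q * 2 ^ (j / 4) / 2 ^ j := by ring
        refine (sum_le_sum h3).trans (le_of_eq ?_)
        rw [sum_const, card_univ, Fintype.card_fin, nsmul_eq_mul]
      have hmain := hC₂ M Q hQM (N j) (2 ^ r) (2 ^ (j / 4)) ((n : ℝ) * (8 * Q * 2 ^ (j / 4) / 2 ^ j)) h2R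
        (hRC.trans (hj4.trans (hN j).1)) hRC (hQRV.trans (hj4.trans (hN j).1)) hQRV (G j) (hG2 j) _ (hGs j) hη
      refine hmain.trans ?_
      have hQ3r : (Q : ℝ) ^ 3 ≤ 2 ^ r := by exact_mod_cast hQ3 j hja
      have hQ5 : (Q : ℝ) ^ 5 * (2 ^ (j / 4)) ^ 2 * 2 ^ r ≤ (2 ^ j) ^ 2 := by
        have h3 : Q ^ 5 * (2 ^ (j / 4)) ^ 2 * 2 ^ r ≤ (2 ^ j) ^ 2 := by
          calc Q ^ 5 * (2 ^ (j / 4)) ^ 2 * 2 ^ r ≤ Q ^ 6 * (2 ^ (j / 4)) ^ 2 * 2 ^ r := by
                refine Nat.mul_le_mul_right _ (Nat.mul_le_mul_right _ ?_)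
                exact Nat.pow_le_pow_right hQpos (by norm_num)
            _ = (Q ^ 3) ^ 2 * (2 ^ (j / 4)) ^ 2 * 2 ^ r := by ring
            _ ≤ (2 ^ r) ^ 2 * (2 ^ (j / 4)) ^ 2 * 2 ^ r := by
                refine Nat.mul_le_mul_right _ (Nat.mul_le_mul_right _ ?_)
                exact Nat.pow_le_pow_left (hQ3 j hja) 2
            _ = 2 ^ (3 * r + 2 * (j / 4)) := by
                rw [← pow_mul, ← pow_mul, ← pow_add, ← pow_add]
                congr 1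
                omega
            _ ≤ 2 ^ (j * 2) := Nat.pow_le_pow_right (by norm_num) (by omega)
            _ = (2 ^ j) ^ 2 := by rw [pow_mul]
        exact_mod_cast h3
      have hp1 : (0 : ℝ) < 2 ^ r := by positivity
      have hp2 : (0 : ℝ) < 2 ^ j := by positivity
      have e1 : (Q : ℝ) ^ 3 * (2 / ((2 ^ r : ℕ) : ℝ) ^ 2) ≤ 2 * (1 / 2 ^ r) := by
        push_cast
        have e2 : (Q : ℝ) ^ 3 * (2 / ((2 : ℝ) ^ r) ^ 2) = 2 * ((Q : ℝ) ^ 3 / (2 ^ r) ^ 2) := by ring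
        rw [e2]
        refine mul_le_mul_of_nonneg_left ?_ (by norm_num)
        rw [div_le_div_iff₀ (by positivity) (by positivity)]
        nlinarith
      have e2 : (Q : ℝ) ^ 3 * (2 * ((n : ℝ) * (8 * Q * 2 ^ (j / 4) / 2 ^ j)) ^ 2) ≤
          128 * (n : ℝ) ^ 2 * (1 / 2 ^ r) := by
        have e3 : (Q : ℝ) ^ 3 * (2 * ((n : ℝ) * (8 * Q * 2 ^ (j / 4) / 2 ^ j)) ^ 2) =
            128 * (n : ℝ) ^ 2 * ((Q : ℝ) ^ 5 * (2 ^ (j / 4)) ^ 2 / (2 ^ j) ^ 2) := by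
          field_simp
          ring
        rw [e3]
        refine mul_le_mul_of_nonneg_left ?_ (by positivity)
        rw [div_le_div_iff₀ (by positivity) (by positivity), one_mul]
        exact hQ5
      calc (Q : ℝ) ^ 3 * 4 ^ n * (2 / ((2 ^ r : ℕ) : ℝ) ^ 2 + 2 * ((n : ℝ) * (8 * Q * 2 ^ (j / 4) / 2 ^ j)) ^ 2)
          = 4 ^ n * ((Q : ℝ) ^ 3 * (2 / ((2 ^ r : ℕ) : ℝ) ^ 2) +
            (Q : ℝ) ^ 3 * (2 * ((n : ℝ) * (8 * Q * 2 ^ (j / 4) / 2 ^ j)) ^ 2)) := by ring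
        _ ≤ 4 ^ n * (2 * (1 / 2 ^ r) + 128 * (n : ℝ) ^ 2 * (1 / 2 ^ r)) :=
            mul_le_mul_of_nonneg_left (add_le_add e1 e2) (by positivity)
        _ = 4 ^ n * (2 + 128 * (n : ℝ) ^ 2) * (1 / 2 ^ r) := by ring
    refine (sum_le_sum h1).trans ?_
    rw [← mul_sum, ha₂, mul_div_assoc]
    refine mul_le_mul_of_nonneg_left ?_ (by positivity)
    refine (sum_half_Icc c (by omega) a b).trans ?_
    apply div_le_div_of_nonneg_left (by positivity) (by positivity)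
    apply pow_le_pow_right₀ (by norm_num)
    rw [Nat.le_div_iff_mul_le (by omega)]
    exact hta
  have hT3 : MaxLe (Icc a b) (fun j x =>
      tv (N j) (fun m => ZZ hQM P (G j) (x + pz M (P i₀) m) (red hQM x))) (a₃ / 2 ^ (t / (C₄ + 1))) := by
    unfold MaxLe
    have hη : ∀ j ∈ Icc a b, ∀ (y : ZMod M) (ρ : ZMod Q), ∀ v < Q,
        ‖ZZ hQM P (G j) (y + ((v : ℕ) : ZMod M)) ρ - ZZ hQM P (G j) y ρ‖ ≤ 2 ^ n * ((n : ℝ) * 8) / 2 ^ t := by
      intro j hj y ρ v hv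
      have hja : a ≤ j := (mem_Icc.1 hj).1
      refine (ZZ_shift hQM P (G j) (hG2 j) _ (hGs j) y ρ v).trans ?_
      rw [mul_div_assoc]
      refine mul_le_mul_of_nonneg_left ?_ (by positivity)
      have h1 : ∀ l ∈ (univ : Finset (Fin n)), (4 : ℝ) / (Klong B t (N j) (e l) : ℝ) * ((v : ℝ) / Q + 1) ≤
          8 / 2 ^ t := by
        intro l _
        have h2 : (v : ℝ) / Q + 1 ≤ 2 := by
          have h3 : (v : ℝ) / Q ≤ 1 := by
            rw [div_le_one (by linarith)]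
            exact_mod_cast hv.le
          linarith
        calc (4 : ℝ) / (Klong B t (N j) (e l) : ℝ) * ((v : ℝ) / Q + 1) ≤ 4 / 2 ^ t * 2 :=
              mul_le_mul (hκt j hja l) h2 (by positivity) (by positivity)
          _ = 8 / 2 ^ t := by ring
      refine (sum_le_sum h1).trans (le_of_eq ?_)
      rw [sum_const, card_univ, Fintype.card_fin, nsmul_eq_mul]
      ring
    refine (hC₃ M Q hQM (Icc a b) N (fun j y ρ => ZZ hQM P (G j) y ρ) _ (by positivity) hη).trans ?_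
    have hS : (2 ^ (t / (C₄ + 1))) ^ C₄ ≤ 2 ^ t := by
      rw [← pow_mul]
      apply Nat.pow_le_pow_right (by norm_num)
      calc t / (C₄ + 1) * C₄ ≤ t / (C₄ + 1) * (C₄ + 1) := Nat.mul_le_mul_left _ (Nat.le_succ _)
        _ ≤ t := Nat.div_mul_le_self _ _
    have h2S : 2 ≤ 2 ^ (t / (C₄ + 1)) := by
      calc 2 = 2 ^ 1 := by norm_num
        _ ≤ 2 ^ (t / (C₄ + 1)) := Nat.pow_le_pow_right (by norm_num)
            ((Nat.one_le_div_iff (by omega)).2 ht4)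
    have hz := hC₄ M Q q L (2 ^ (t / (C₄ + 1))) hQM hM h2S hqQ
      (fun r hr hrS => dvd_QB hB (by omega) hr (hrS.trans hS)) i a b f hf
      (fun j l => Klong B t (N j) (e l))
      (fun l j hj => by
        have hja : a ≤ j := (mem_Icc.1 hj).1
        have hjb : j ≤ b := (mem_Icc.1 hj).2
        constructor
        · refine hS.trans ?_
          show 2 ^ t ≤ Klong B t (N j) (e l)
          have h1 : Q ≤ (N j) ^ e l :=
            ((hQj j hja).trans (hN j).1).trans (Nat.le_self_pow (by have := h.pos l; omega) _)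
          have h2 : 2 ^ t ≤ (N j) ^ e l * 2 ^ t / Q := by
            rw [Nat.le_div_iff_mul_le (by omega), mul_comm]
            exact Nat.mul_le_mul_right _ h1
          unfold Klong
          rw [← hQdef]
          omega
        · show Klong B t (N j) (e l) < 2 ^ L
          have h1 : (N j) ^ e l ≤ 2 ^ ((b + 1) * D) := by
            calc (N j) ^ e l ≤ (2 ^ (b + 1)) ^ e l := Nat.pow_le_pow_left
                    ((hN j).2.le.trans (Nat.pow_le_pow_right (by norm_num) (by omega))) _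
              _ ≤ (2 ^ (b + 1)) ^ D := Nat.pow_le_pow_right (by positivity) (hD l)
              _ = 2 ^ ((b + 1) * D) := by rw [← pow_mul]
          have h2 : (N j) ^ e l * 2 ^ t / Q ≤ 2 ^ ((b + 1) * D + t) := by
            refine (Nat.div_le_self _ _).trans ?_
            rw [pow_add]
            exact Nat.mul_le_mul_right _ h1
          have h3 : 1 < 2 ^ ((b + 1) * D + t) := by
            apply Nat.one_lt_two_pow
            omega
          have h4 : 2 ^ L = 2 ^ ((b + 1) * D + t) * 2 := by rw [hL, pow_succ]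
          unfold Klong
          rw [← hQdef]
          omega)
      (fun l i' j' hi' hij _ => Klong_mono hN B t (e l) hij)
      (fun l k => card_log hN B t (e l) a b k (h.pos l) (hQj a le_rfl))
    have hz' : avr (fun y : ZMod M => avr (fun ρ : ZMod Q => (fmax (Icc a b) (fun j =>
        ‖ZZ hQM P (G j) y ρ‖)) ^ 2)) ≤ (C₄ : ℝ) / 2 ^ (t / (C₄ + 1)) := by
      refine hz.trans (le_of_eq ?_)
      push_cast
      rfl
    have hp : (1 : ℝ) ≤ 2 ^ t := one_le_pow₀ (by norm_num)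
    have hpt : (2 : ℝ) ^ (t / (C₄ + 1)) ≤ 2 ^ t := pow_le_pow_right₀ (by norm_num) (Nat.div_le_self _ _)
    have hsq : (2 ^ n * ((n : ℝ) * 8) / 2 ^ t) ^ 2 ≤ (2 ^ n * ((n : ℝ) * 8)) ^ 2 / 2 ^ (t / (C₄ + 1)) := by
      rw [div_pow]
      apply div_le_div_of_nonneg_left (by positivity) (by positivity)
      nlinarith
    calc _ ≤ C₃ * ((C₄ : ℝ) / 2 ^ (t / (C₄ + 1)) + (2 ^ n * ((n : ℝ) * 8)) ^ 2 / 2 ^ (t / (C₄ + 1))) :=
          mul_le_mul_of_nonneg_left (add_le_add hz' hsq) hC₃0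
      _ = a₃ / 2 ^ (t / (C₄ + 1)) := by rw [ha₃]; ring
  -- the sum
  have hsum := MaxLe.add (MaxLe.add hT1 hT2) hT3
  refine MaxLe.mono (Subset.refl _) ?_ (fun j _ x => le_of_eq ?_) hsum
  · have hp1 : (2 : ℝ) ^ (t / (C₄ + 1)) ≤ 2 ^ t := pow_le_pow_right₀ (by norm_num) (Nat.div_le_self _ _)
    have h1 : a₁ ^ 2 / 2 ^ t ≤ a₁ ^ 2 / 2 ^ (t / (C₄ + 1)) :=
      div_le_div_of_nonneg_left (by positivity) (by positivity) hp1
    have h2 : a₂ / 2 ^ t ≤ a₂ / 2 ^ (t / (C₄ + 1)) :=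
      div_le_div_of_nonneg_left (by positivity) (by positivity) hp1
    have h3 : 2 * (2 * (a₁ ^ 2 / 2 ^ t) + 2 * (a₂ / 2 ^ t)) + 2 * (a₃ / 2 ^ (t / (C₄ + 1))) ≤
        (4 * a₁ ^ 2 + 4 * a₂ + 2 * a₃) / 2 ^ (t / (C₄ + 1)) := by
      have e1 : (4 * a₁ ^ 2 + 4 * a₂ + 2 * a₃) / 2 ^ (t / (C₄ + 1)) =
          4 * (a₁ ^ 2 / 2 ^ (t / (C₄ + 1))) + 4 * (a₂ / 2 ^ (t / (C₄ + 1))) +
          2 * (a₃ / 2 ^ (t / (C₄ + 1))) := by ring
      rw [e1]
      linarith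
    refine h3.trans ?_
    set X : ℕ := ⌈4 * a₁ ^ 2 + 4 * a₂ + 2 * a₃⌉₊ with hX
    have h4 : 4 * a₁ ^ 2 + 4 * a₂ + 2 * a₃ ≤ (X : ℝ) := Nat.le_ceil _
    have h5 : (X : ℝ) ≤ ((C₄ + 1 + X : ℕ) : ℝ) := by
      push_cast
      have : (0 : ℝ) ≤ C₄ := Nat.cast_nonneg _
      linarith
    have h6 : (2 : ℝ) ^ (t / (C₄ + 1 + X)) ≤ 2 ^ (t / (C₄ + 1)) :=
      pow_le_pow_right₀ (by norm_num) (Nat.div_le_div_left (by omega) (by omega))
    exact div_le_div₀ (by positivity) (h4.trans h5) (by positivity) h6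
  · congr 1
    show AA (N j) P (G j) x = _
    ring


end Pool.Agent.EQD.Lo.G
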