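import Pool.Agent.Lib.EQG.Lo.Ta
import Pool.Agent.Lib.EQG.Lo.Tb
import Pool.Agent.Lib.EQD.T1c

/-!
# LowG: sum over the levels
-/

set_option autoImplicit false

open Finset Polynomial

namespace Pool.Agent.EQD.Lo.G

open Pool.Agent.HLT Pool.Agent.NLT Pool.Agent.NLG
open Pool.Agent.EQD.G (GDeg MidG LowG Sw)

open T1cAux

namespace TcAux

theorem level {n : ℕ} {P : Fin n → ℤ[X]} {e : Fin n → ℕ} {B CA CB t b : ℕ} {κ : Fin n → ℕ} {M : ℕ} [NeZero M] {N : ℕ → ℕ}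
    {f : Fin n → ZMod M → ℂ}
    (HA : ∀ i : Fin n, MaxLe (Icc (4 ^ (t + 1)) b) (fun j x =>
        AA (N j) P (hyb (fun l => Eb (QB B (t + 1)) (Kshort B (κ l) t j (N j) (e l)) (f l))
          (fun l => Eb (QB B t) (QB B (t + 1) / QB B t) (Eb (QB B (t + 1)) (Kshort B (κ l) t j (N j) (e l)) (f l))) i) x -
        AA (N j) P (hyb (fun l => Eb (QB B (t + 1)) (Klong B t (N j) (e l)) (f l))
          (fun l => Eb (QB B t) (QB B (t + 1) / QB B t) (Eb (QB B (t + 1)) (Klong B t (N j) (e l)) (f l))) i) x)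
        ((CA : ℝ) / 2 ^ (t / CA)))
    (HB : ∀ i : Fin n, MaxLe (Icc (4 ^ (t + 1)) b) (fun j x =>
        AA (N j) P (hyb (fun l => Eb (QB B (t + 1)) (Klong B t (N j) (e l)) (f l))
          (fun l => Eb (QB B t) (QB B (t + 1) / QB B t) (Eb (QB B (t + 1)) (Klong B t (N j) (e l)) (f l))) i) x)
        ((CB : ℝ) / 2 ^ (t / CB))) :
    MaxLe (Icc (4 ^ (t + 1)) b) (fun j x =>
      AA (N j) P (fun l => Ew B (t + 1) (tj j) (N j ^ e l / 2 ^ κ l) (f l)) x -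
        AA (N j) P (fun l => Ew B t (tj j) (N j ^ e l / 2 ^ κ l) (f l)) x) (del n CA CB t) := by
  have h1 := MaxLe.sum (univ : Finset (Fin n)) (fun i _ => MaxLe.add (HA i) (HB i))
  refine MaxLe.mono (subset_refl _) (le_refl _) ?_ h1
  intro j hj x
  have hj' : t + 1 ≤ tj j := tj_ge (mem_Icc.mp hj).1
  refine le_of_eq ?_
  congr 1
  have e1 : (fun l => Ew B (t + 1) (tj j) (N j ^ e l / 2 ^ κ l) (f l)) =
      fun l => Eb (QB B (t + 1)) (Kshort B (κ l) t j (N j) (e l)) (f l) := by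
    funext l
    exact (Ew_eq B (κ l) t j (N j) (e l) hj' (f l)).1
  have e2 : (fun l => Ew B t (tj j) (N j ^ e l / 2 ^ κ l) (f l)) =
      fun l => Eb (QB B t) (QB B (t + 1) / QB B t) (Eb (QB B (t + 1)) (Kshort B (κ l) t j (N j) (e l)) (f l)) := by
    funext l y
    exact (Ew_eq B (κ l) t j (N j) (e l) hj' (f l)).2 y
  rw [e1, e2, AA_sub_hyb]
  refine Finset.sum_congr rfl fun i _ => ?_
  ring

end TcAux

theorem low_bound {n : ℕ} {P : Fin n → ℤ[X]} {e : Fin n → ℕ} {i₀ : Fin n} (h : GDeg P e i₀) : LowG P e := by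
  intro B hB κ ε hε
  obtain ⟨CA, tA, hCA, HA⟩ := levelA h B κ hB
  obtain ⟨CB, tB, hCB, HB⟩ := levelB h B hB
  obtain ⟨t₁, ht₁⟩ := tail (2 * (n : ℝ) * n * (CA + CB)) (by positivity) CA CB hCA hCB (del n CA CB)
    (del_le n CA CB) ε hε
  obtain ⟨t₀, ht₀⟩ : ∃ t₀, t₀ = max (max tA tB) t₁ := ⟨_, rfl⟩
  have h0A : tA ≤ t₀ := by rw [ht₀]; exact (le_max_left _ _).trans (le_max_left _ _)
  have h0B : tB ≤ t₀ := by rw [ht₀]; exact (le_max_right _ _).trans (le_max_left _ _)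
  have h01 : t₁ ≤ t₀ := by rw [ht₀]; exact le_max_right _ _
  refine ⟨t₀, 4 ^ (t₀ + 1), ?_, ?_⟩
  · intro j hj
    exact (Nat.le_succ t₀).trans (tj_ge hj)
  intro J₁
  have HB' : ∀ t : ℕ, ∃ m : ℕ, 1 ≤ m ∧ (tB ≤ t → ∀ (M : ℕ) [NeZero M], m ∣ M →
      ∀ N : ℕ → ℕ, Sc N → ∀ f : Fin n → ZMod M → ℂ, (∀ l, Bd (f l)) → ∀ i : Fin n,
      MaxLe (Icc (4 ^ (t + 1)) J₁) (fun j x =>
        AA (N j) P (hyb (fun l => Eb (QB B (t + 1)) (Klong B t (N j) (e l)) (f l))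
          (fun l => Eb (QB B t) (QB B (t + 1) / QB B t) (Eb (QB B (t + 1)) (Klong B t (N j) (e l)) (f l))) i) x)
        ((CB : ℝ) / 2 ^ (t / CB))) := by
    intro t
    by_cases ht : tB ≤ t
    · obtain ⟨m, hm1, hm2⟩ := HB t ht (4 ^ (t + 1)) J₁ (le_refl _)
      refine ⟨m, hm1, fun _ => ?_⟩
      intro M _ hM N hN f hf i
      exact hm2 M hM N hN f hf i
    · exact ⟨1, le_refl 1, fun h => absurd h ht⟩
  choose m hm1 hm2 using HB'
  refine ⟨(∏ t ∈ Ico t₀ (J₁ + 1), m t) * ∏ t ∈ Ico t₀ (J₁ + 1), QB B (t + 1), Nat.one_le_iff_ne_zero.mpr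
    (Nat.mul_ne_zero (Finset.prod_ne_zero_iff.mpr fun t _ => Nat.one_le_iff_ne_zero.mp (hm1 t))
      (Finset.prod_ne_zero_iff.mpr fun t _ => Nat.one_le_iff_ne_zero.mp (QB_pos B (t + 1)))), ?_⟩
  intro M _ hM N hN f hf c hc
  -- the levels
  obtain ⟨A, hA⟩ : ∃ A : ℕ → ℕ → ZMod M → ℂ, A = fun t j x =>
    AA (N j) P (fun l => Ew B t (tj j) (N j ^ e l / 2 ^ κ l) (f l)) x := ⟨_, rfl⟩
  have hlev : ∀ t ∈ Ico t₀ (J₁ + 1), MaxLe (Icc (4 ^ (t + 1)) J₁) (fun j x => A (t + 1) j x - A t j x)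
      (del n CA CB t) := by
    intro t ht
    have ht' := Finset.mem_Ico.mp ht
    rw [hA]
    exact TcAux.level (fun i => HA t (h0A.trans ht'.1) (4 ^ (t + 1)) J₁ (le_refl _) M
        ((Finset.dvd_prod_of_mem (fun t => QB B (t + 1)) ht).trans ((Dvd.intro_left _ rfl).trans hM)) N hN f hf i)
      (fun i => hm2 t (h0B.trans ht'.1) M ((Finset.dvd_prod_of_mem m ht).trans ((Dvd.intro _ rfl).trans hM)) N hN f hf i)
  obtain ⟨G, hG⟩ : ∃ G : ℕ → ZMod M → ℝ, G = fun t x =>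
    fmax (Icc (4 ^ (t + 1)) J₁) (fun j => ‖A (t + 1) j x - A t j x‖) := ⟨_, rfl⟩
  have hG0 : ∀ t x, 0 ≤ G t x := by
    intro t x
    rw [hG]
    exact fmax_nonneg fun j _ => norm_nonneg _
  have hpt : ∀ x, ‖A (tj (c x)) (c x) x - A t₀ (c x) x‖ ≤ ∑ t ∈ Ico t₀ (J₁ + 1), G t x := by
    intro x
    obtain ⟨hc0, hc1⟩ := hc x
    have hT : t₀ ≤ tj (c x) := (Nat.le_succ t₀).trans (tj_ge hc0)
    have hT1 : tj (c x) ≤ J₁ + 1 := ((tj_le _).trans hc1).trans (Nat.le_succ _)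
    rw [tele (fun t => A t (c x) x) t₀ (tj (c x)) hT]
    refine (norm_sum_le _ _).trans ?_
    calc ∑ t ∈ Ico t₀ (tj (c x)), ‖A (t + 1) (c x) x - A t (c x) x‖ ≤ ∑ t ∈ Ico t₀ (tj (c x)), G t x := by
          refine sum_le_sum fun t ht => ?_
          have ht' := Finset.mem_Ico.mp ht
          rw [hG]
          exact le_fmax (fun j => ‖A (t + 1) j x - A t j x‖) (mem_Icc.mpr ⟨ge_of_tj ht'.2, hc1⟩)
      _ ≤ ∑ t ∈ Ico t₀ (J₁ + 1), G t x :=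
          sum_le_sum_of_subset_of_nonneg (Finset.Ico_subset_Ico_right hT1) fun t _ _ => hG0 t x
  have hgoal : avr (fun x => ‖A (tj (c x)) (c x) x - A t₀ (c x) x‖) ≤ ε := by
    refine (avr_mono hpt).trans ?_
    rw [avr_sum]
    refine le_trans ?_ (ht₁ t₀ h01 (J₁ + 1))
    refine sum_le_sum fun t ht => ?_
    refine Real.le_sqrt_of_sq_le ?_
    refine (avr_sq_le _).trans ?_
    have h1 := hlev t ht
    unfold MaxLe at h1
    rw [hG]
    exact h1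
  rw [hA] at hgoal
  exact hgoal


end Pool.Agent.EQD.Lo.G
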