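import Pool.Agent.Lib.EQG.Lo.XSc
import Pool.Agent.Lib.EQG.Lo.Tc
import Pool.Agent.Lib.EQG.InvG
import Pool.Agent.Lib.EQD.Final

/-!
# The theorem for families with a base, from the first half of the approximation (fork of `EQD/Final`)
-/

set_option autoImplicit false

open Finset Polynomial MeasureTheory Filter Topology
open scoped ENNReal NNReal

namespace Pool.Agent.EQD.Lo.G

open Pool.Agent.HLT Pool.Agent.NLT Pool.Agent.NLG
open Pool.Agent.EQD.G (GDeg MidG LowG Sw)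

open Pool.Agent.EQD.G (dst edst gdeg_of)

/-- The first half of the approximation for the general class. -/
def Half : Prop := ∀ {n : ℕ} {P : Fin n → ℤ[X]} {e : Fin n → ℕ} {i₀ : Fin n}, GDeg P e i₀ → MidG P e

theorem dst_shift {n : ℕ} (P : Fin n → ℤ[X]) (i₀ : Fin n) :
    dst (fun i => (P i).comp (Polynomial.X + 1)) i₀ = dst P i₀ := by
  have h1 : ∀ Q : ℤ[X], (Q.comp (Polynomial.X + 1)).natDegree = Q.natDegree := by
    intro Q
    rw [Polynomial.natDegree_comp]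
    have : (Polynomial.X + 1 : ℤ[X]).natDegree = 1 := by
      rw [show (1 : ℤ[X]) = Polynomial.C 1 by simp]
      exact Polynomial.natDegree_X_add_C 1
    rw [this, mul_one]
  funext j
  unfold dst
  simp only [← Polynomial.sub_comp, h1]

section dyn

variable {X : Type} [MeasurableSpace X] {μ : Measure X} [IsProbabilityMeasure μ]

/-- Functions bounded by one, averages over `t < N`. -/
theorem conv_bdd (H : Half) {n : ℕ} (P : Fin n → ℤ[X]) (i₀ : Fin n) (hpos : ∀ j, 1 ≤ dst P i₀ j)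
    (hinj : Function.Injective (dst P i₀)) (T : Equiv.Perm X) (hT : IMP μ T) (f : Fin n → X → ℂ)
    (hfm : ∀ l, Measurable (f l)) (hf : ∀ l x, ‖f l x‖ ≤ 1) :
    (∀ᵐ x ∂μ, ∃ L : ℂ, Tendsto (fun N : ℕ => AX T N P f x) atTop (𝓝 L)) ∧
    ((∀ q : ℕ, 1 ≤ q → Ergodic (T ^ q : Equiv.Perm X) μ) →
      ∀ᵐ x ∂μ, Tendsto (fun N : ℕ => AX T N P f x) atTop (𝓝 (∏ l, ∫ y, f l y ∂μ))) ∧
    (∀ i, (∀ q : ℕ, 1 ≤ q → ∀ᵐ x ∂μ, Tendsto (fun K : ℕ => EX T q K (f i) x) atTop (𝓝 0)) →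
      ∀ᵐ x ∂μ, Tendsto (fun N : ℕ => AX T N P f x) atTop (𝓝 0)) := by
  have h := gdeg_of P i₀ hpos hinj
  have hM : MidG P (edst P i₀) := H h
  have hL : LowG P (edst P i₀) := low_bound h
  have he : ∀ l, 1 ≤ edst P i₀ l := h.pos
  have key : ∀ᵐ x ∂μ, ∃ L : ℂ, Tendsto (fun N : ℕ => AX T N P f x) atTop (𝓝 L) :=
    xall _ X μ T _ (fun l x => hf _ x)
      (fun N hN => xscale he hM hL X μ T hT _ hfm hf N hN)
  have hN : Sc (fun j => 2 ^ j) := fun j => ⟨le_refl _, Nat.pow_lt_pow_right (by norm_num) (Nat.lt_succ_self j)⟩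
  have hpow : Tendsto (fun j : ℕ => 2 ^ j) atTop atTop := tendsto_pow_atTop_atTop_of_one_lt (by norm_num)
  refine ⟨key, fun hE => ?_, fun i hi => ?_⟩
  · have h2 := xscale_erg he hM hL X μ T hT hE f hfm hf _ hN
    filter_upwards [key, h2] with x hx1 hx2
    obtain ⟨L, hL'⟩ := hx1
    have := tendsto_nhds_unique (hL'.comp hpow) hx2
    rw [this] at hL'
    exact hL'
  · have h2 := xscale_zero he hM hL X μ T hT f hfm hf i hi _ hN
    filter_upwards [key, h2] with x hx1 hx2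
    obtain ⟨L, hL'⟩ := hx1
    have := tendsto_nhds_unique (hL'.comp hpow) hx2
    rw [this] at hL'
    exact hL'

/-- The theorem. -/
theorem final (H : Half) (n : ℕ) (T : Equiv.Perm X) (hT : IMP μ T)
    (P : Fin n → ℤ[X]) (i₀ : Fin n) (hpos : ∀ j, 1 ≤ dst P i₀ j) (hinj : Function.Injective (dst P i₀)) (f : Fin n → X → ℂ) (hf : ∀ i, MemLp (f i) ⊤ μ) :
    (∀ᵐ x ∂μ, ∃ L : ℂ, Tendsto (fun N : ℕ => (N : ℂ)⁻¹ *
      ∑ m ∈ Finset.Icc 1 N, ∏ i, f i ((T ^ ((P i).eval (m : ℤ))) x)) atTop (𝓝 L)) ∧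
    ((∀ q : ℕ, 1 ≤ q → Ergodic (T ^ q : Equiv.Perm X) μ) →
      ∀ᵐ x ∂μ, Tendsto (fun N : ℕ => (N : ℂ)⁻¹ *
        ∑ m ∈ Finset.Icc 1 N, ∏ i, f i ((T ^ ((P i).eval (m : ℤ))) x)) atTop (𝓝 (∏ i, ∫ x, f i x ∂μ))) ∧
    (∀ i, (∀ q : ℕ, 1 ≤ q → ∀ g : X → ℂ, MemLp g 2 μ → (∀ᵐ x ∂μ, g ((T ^ q) x) = g x) → ∫ x, f i x * g x ∂μ = 0) →
      ∀ᵐ x ∂μ, Tendsto (fun N : ℕ => (N : ℂ)⁻¹ *
        ∑ m ∈ Finset.Icc 1 N, ∏ i, f i ((T ^ ((P i).eval (m : ℤ))) x)) atTop (𝓝 0)) := by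
  choose c g hc0 hgm hgb hfg using fun i => bdd_mod (hf i)
  have horb : ∀ᵐ x ∂μ, ∀ i, ∀ m : ℤ, f i ((T ^ m) x) = (c i : ℂ) * g i ((T ^ m) x) := by
    rw [ae_all_iff]; intro i
    rw [ae_all_iff]; intro m
    exact (Pool.Agent.Lib.Pf720ae.mp_zpow hT.1 hT.2.1 hT.2.2 m).quasiMeasurePreserving.ae (hfg i)
  have heq : ∀ᵐ x ∂μ, ∀ N : ℕ, (N : ℂ)⁻¹ * ∑ m ∈ Finset.Icc 1 N, ∏ i, f i ((T ^ ((P i).eval (m : ℤ))) x) =
      (∏ i, (c i : ℂ)) * AX T N (fun i => (P i).comp (Polynomial.X + 1)) g x := by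
    filter_upwards [horb] with x hx
    intro N
    rw [AX_shift, mul_left_comm]
    congr 1
    rw [Finset.mul_sum]
    refine Finset.sum_congr rfl fun m _ => ?_
    rw [← Finset.prod_mul_distrib]
    exact Finset.prod_congr rfl fun i _ => hx i _
  obtain ⟨h1, h2, h3⟩ := conv_bdd (μ := μ) H (fun i => (P i).comp (Polynomial.X + 1)) i₀ (by rw [dst_shift]; exact hpos)
    (by rw [dst_shift]; exact hinj) T hT g hgm hgb
  refine ⟨?_, ?_, ?_⟩
  · filter_upwards [heq, h1] with x hx1 hx2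
    obtain ⟨L, hL⟩ := hx2
    refine ⟨(∏ i, (c i : ℂ)) * L, ?_⟩
    simp only [hx1]
    exact hL.const_mul _
  · intro hE
    filter_upwards [heq, h2 hE] with x hx1 hx2
    simp only [hx1]
    have hint : (∏ i, ∫ x, f i x ∂μ) = (∏ i, (c i : ℂ)) * ∏ i, ∫ x, g i x ∂μ := by
      rw [← Finset.prod_mul_distrib]
      refine Finset.prod_congr rfl fun i _ => ?_
      rw [← integral_const_mul]
      exact integral_congr_ae (hfg i)
    rw [hint]
    exact hx2.const_mul _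
  · intro i hi
    have hz : ∀ q : ℕ, 1 ≤ q → ∀ᵐ x ∂μ, Tendsto (fun K : ℕ => EX T q K (g i) x) atTop (𝓝 0) := by
      intro q hq
      refine ex_zero T hT q (hgm i) (hgb i) fun u hu hinv => ?_
      have h4 := hi q hq u hu hinv
      have h5 : ∫ x, f i x * u x ∂μ = (c i : ℂ) * ∫ x, g i x * u x ∂μ := by
        rw [← integral_const_mul]
        refine integral_congr_ae ?_
        filter_upwards [hfg i] with x hx
        rw [hx]; ring
      rw [h5] at h4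
      exact (mul_eq_zero.1 h4).resolve_left (by exact_mod_cast (hc0 i).ne')
    filter_upwards [heq, h3 i hz] with x hx1 hx2
    simp only [hx1]
    simpa using hx2.const_mul (∏ i, (c i : ℂ))

end dyn

end Pool.Agent.EQD.Lo.G
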