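import Pool.Agent.Lib.EQG.GSg
import Pool.Agent.Lib.EQG.GMu
import Pool.Agent.Lib.EQG.TSw
import Pool.Agent.Lib.EQD.T1a
import Pool.Agent.Lib.EQD.T1b

/-!
# LowG: one level: all widths may be replaced by long ones
-/

set_option autoImplicit false

open Finset Polynomial

namespace Pool.Agent.EQD.Lo.G

open Pool.Agent.HLT Pool.Agent.NLT Pool.Agent.NLG
open Pool.Agent.EQD.G (GDeg MidG LowG Sw)

open T1bAux (sum_half_Icc)

namespace TaAux

section group

variable {M : ℕ} [NeZero M]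

/-- `hyb` of slowly varying functions. -/
lemma sw_hyb {n Q : ℕ} {c c' : ℝ} {lam lam' : Fin n → ℝ} (hc : 0 ≤ c) (hc' : 0 ≤ c') (hl : ∀ k, 0 ≤ lam k) (hl' : ∀ k, 0 ≤ lam' k)
    (f f' : Fin n → ZMod M × ZMod M → ℂ) (i : Fin n)
    (hf : ∀ k, Sw Q c (lam k) (fun z y => f k (z, y))) (hf' : ∀ k, Sw Q c' (lam' k) (fun z y => f' k (z, y))) (k : Fin n) :
    Sw Q (c + c') (lam k + lam' k) (fun z y => hyb f f' i k (z, y)) := by
  unfold hyb
  by_cases h1 : k < i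
  · simp only [h1, if_true]
    exact Pool.Agent.EQD.G.sw_mono (hf k) (by linarith) (by have := hl' k; linarith)
  · by_cases h2 : k = i
    · subst h2
      simp only [lt_irrefl, if_false, if_true]
      exact Pool.Agent.EQD.G.sw_sub (hf k) (hf' k)
    · simp only [h1, h2, if_false]
      exact Pool.Agent.EQD.G.sw_mono (hf' k) (by linarith) (by have := hl k; linarith)

lemma Eb_sub0 (q : ℕ) (F G : ZMod M → ℂ) (y : ZMod M) (hF : Eb q M F y = 0) (hG : Eb q M G y = 0) :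
    Eb q M (fun y => F y - G y) y = 0 := by
  rw [Eb_sub, hF, hG, sub_zero]

/-- One term at one scale. -/
lemma term {n : ℕ} {P : Fin n → ℤ[X]} {e : Fin n → ℕ} {C₁ : ℕ} (N R Q q W : ℕ) (hQM : Q ∣ M)
    (hsg : ∀ (lam : Fin n → ℝ) (V : Fin n → ZMod M → ZMod M → ℂ),
      (∀ l, 0 ≤ lam l ∧ lam l * (N : ℝ) ^ e l ≤ W) → (∀ l, Sw Q 4 (lam l) (V l)) →
      ∀ i, (∀ z y, Eb q M (V i z) y = 0) → ∀ (l : Fin n) (η : ℝ), 0 ≤ η → 1 ≤ η ^ C₁ * N →
      n2 (AA N P (fun k x => V k x x)) ≤ C₁ / R * n2 (fun x => V l x x) + η)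
    (hQ : 1 ≤ Q) (hqQ : q ∣ Q) (Ks Kl : Fin n → ℕ) (hKs : ∀ k, 1 ≤ Ks k) (hKl : ∀ k, Ks k ≤ Kl k)
    (hW : ∀ k, 8 * (N : ℝ) ^ e k ≤ W * (Q * Ks k)) (f : Fin n → ZMod M → ℂ) (hf : ∀ l, Bd (f l)) (i l : Fin n)
    (η : ℝ) (hη : 0 ≤ η) (hηN : 1 ≤ η ^ C₁ * N) :
    n2 (AA N P (hyb (hyb (fun l => Eb Q (Ks l) (f l)) (fun l => Eb q (Q / q) (Eb Q (Ks l) (f l))) i)
      (hyb (fun l => Eb Q (Kl l) (f l)) (fun l => Eb q (Q / q) (Eb Q (Kl l) (f l))) i) l)) ≤
      4 * C₁ / R * n2 (fun x => Eb Q (Ks l) (f l) x - Eb Q (Kl l) (f l) x) + η := by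
  have hqM : q ∣ M := hqQ.trans hQM
  have hq1 : 1 ≤ q := Nat.pos_of_dvd_of_pos hqQ hQ
  have hqg : q * (Q / q) = Q := Nat.mul_div_cancel' hqQ
  have hKl1 : ∀ k, 1 ≤ Kl k := fun k => (hKs k).trans (hKl k)
  set F1 : Fin n → ZMod M × ZMod M → ℂ := fun k p => mU Q (Q * Ks k) 0 (f k) p.1 p.2 with hF1
  set F2 : Fin n → ZMod M × ZMod M → ℂ := fun k p => mU q (Q * Ks k) 0 (f k) p.1 p.2 with hF2
  set V1 : Fin n → ZMod M × ZMod M → ℂ := fun k p => mU Q (Q * Kl k) 0 (f k) p.1 p.2 with hV1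
  set V2 : Fin n → ZMod M × ZMod M → ℂ := fun k p => mU q (Q * Kl k) 0 (f k) p.1 p.2 with hV2
  have hQr : (0 : ℝ) < Q := by exact_mod_cast hQ
  -- slowly varying
  have hsw : ∀ (q' : ℕ), 1 ≤ q' → q' ∣ Q → ∀ (K : Fin n → ℕ), (∀ k, Ks k ≤ K k) → ∀ k,
      Sw Q 1 (2 / (Q * Ks k : ℕ)) (fun z y => mU q' (Q * K k) 0 (f k) z y) := by
    intro q' hq' hq'Q K hK k
    have hK1 : 1 ≤ K k := (hKs k).trans (hK k)
    have hL : 1 ≤ Q * K k := Nat.mul_pos hQ hK1
    have h1 := Pool.Agent.EQD.G.sw_mU hq' hq'Q hQ hQM (Nat.le_mul_of_pos_right Q hK1) (f k) (hf k)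
    refine ⟨fun z y => ?_, h1.per, fun z y u => (h1.slow z y u).trans ?_⟩
    · exact Pool.Agent.EQD.G.mU_le_one q' (Q * K k) hq' (hq'Q.trans (Dvd.intro _ rfl)) hL (hq'Q.trans hQM) 0 (f k) (hf k) z y
    · refine mul_le_mul_of_nonneg_right ?_ (by positivity)
      refine div_le_div_of_nonneg_left (by norm_num) ?_ ?_
      · exact_mod_cast Nat.mul_pos hQ (hKs k)
      · exact_mod_cast Nat.mul_le_mul_left Q (hK k)
  have hlam0 : ∀ k, (0 : ℝ) ≤ 2 / (Q * Ks k : ℕ) := fun k => by positivity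
  set VV : Fin n → ZMod M → ZMod M → ℂ := fun k z y => hyb (hyb F1 F2 i) (hyb V1 V2 i) l k (z, y) with hVV
  have hVs : ∀ k, Sw Q 4 (8 / (Q * Ks k : ℕ)) (VV k) := by
    intro k
    have hA : ∀ k, Sw Q (1 + 1) (2 / (Q * Ks k : ℕ) + 2 / (Q * Ks k : ℕ)) (fun z y => hyb F1 F2 i k (z, y)) :=
      fun k => sw_hyb (by norm_num) (by norm_num) hlam0 hlam0 F1 F2 i
        (fun k => hsw Q hQ dvd_rfl Ks (fun _ => le_rfl) k) (fun k => hsw q hq1 hqQ Ks (fun _ => le_rfl) k) k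
    have hB : ∀ k, Sw Q (1 + 1) (2 / (Q * Ks k : ℕ) + 2 / (Q * Ks k : ℕ)) (fun z y => hyb V1 V2 i k (z, y)) :=
      fun k => sw_hyb (by norm_num) (by norm_num) hlam0 hlam0 V1 V2 i
        (fun k => hsw Q hQ dvd_rfl Kl hKl k) (fun k => hsw q hq1 hqQ Kl hKl k) k
    have h1 := sw_hyb (by norm_num) (by norm_num) (fun k => add_nonneg (hlam0 k) (hlam0 k))
      (fun k => add_nonneg (hlam0 k) (hlam0 k)) (hyb F1 F2 i) (hyb V1 V2 i) l hA hB k
    refine Pool.Agent.EQD.G.sw_mono h1 (by norm_num) (le_of_eq ?_)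
    ring
  -- the slot `i` is killed
  have hkF : ∀ z y, Eb q M (fun y => F1 i (z, y) - F2 i (z, y)) y = 0 := by
    intro z y
    rw [Eb_sub]
    have h1 : Eb q M (fun y => F1 i (z, y)) y = mU q (Q * Ks i) 0 (f i) z y :=
      Pool.Agent.EQD.G.Eb_mU hQ hqQ hQM _ 0 (f i) z y
    have h2 : Eb q M (fun y => F2 i (z, y)) y = mU q (Q * Ks i) 0 (f i) z y :=
      Pool.Agent.EQD.G.Eb_mU hq1 dvd_rfl hqM _ 0 (f i) z y
    rw [h1, h2, sub_self]
  have hkV : ∀ z y, Eb q M (fun y => V1 i (z, y) - V2 i (z, y)) y = 0 := by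
    intro z y
    rw [Eb_sub]
    have h1 : Eb q M (fun y => V1 i (z, y)) y = mU q (Q * Kl i) 0 (f i) z y :=
      Pool.Agent.EQD.G.Eb_mU hQ hqQ hQM _ 0 (f i) z y
    have h2 : Eb q M (fun y => V2 i (z, y)) y = mU q (Q * Kl i) 0 (f i) z y :=
      Pool.Agent.EQD.G.Eb_mU hq1 dvd_rfl hqM _ 0 (f i) z y
    rw [h1, h2, sub_self]
  have hkill : ∀ z y, Eb q M (VV i z) y = 0 := by
    intro z y
    have hiF : ∀ y, hyb F1 F2 i i (z, y) = F1 i (z, y) - F2 i (z, y) := fun y => by simp [hyb]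
    have hiV : ∀ y, hyb V1 V2 i i (z, y) = V1 i (z, y) - V2 i (z, y) := fun y => by simp [hyb]
    rcases lt_trichotomy i l with h | h | h
    · have e1 : VV i z = fun y => F1 i (z, y) - F2 i (z, y) := by
        funext y
        have : VV i z y = hyb F1 F2 i i (z, y) := by
          rw [hVV]; simp only [hyb, h, if_true]
        rw [this, hiF]
      rw [e1]
      exact hkF z y
    · have e1 : VV i z = fun y => (F1 i (z, y) - F2 i (z, y)) - (V1 i (z, y) - V2 i (z, y)) := by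
        funext y
        have : VV i z y = hyb F1 F2 i i (z, y) - hyb V1 V2 i i (z, y) := by
          rw [hVV, h]; simp [hyb]
        rw [this, hiF, hiV]
      rw [e1]
      exact Eb_sub0 q _ _ y (hkF z y) (hkV z y)
    · have e1 : VV i z = fun y => V1 i (z, y) - V2 i (z, y) := by
        funext y
        have : VV i z y = hyb V1 V2 i i (z, y) := by
          have h3 : ¬ i < l := not_lt.mpr h.le
          have h4 : i ≠ l := ne_of_gt h
          rw [hVV]; simp [hyb, h3, h4]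
        rw [this, hiV]
      rw [e1]
      exact hkV z y
  -- the diagonals
  have hdiag : ∀ (q' : ℕ), 1 ≤ q' → q' ∣ Q → ∀ (K : ℕ), 1 ≤ K → ∀ (g : ZMod M → ℂ) (x : ZMod M),
      mU q' (Q * K) 0 g x x = Eb q' (Q * K / q') g x := by
    intro q' hq' hq'Q K hK g x
    exact mU_diag_dvd q' (Q * K) hq' (hq'Q.trans hQM) (hq'Q.trans (Dvd.intro _ rfl)) (Nat.mul_pos hQ hK) g x
  have hd1 : ∀ (K : ℕ), 1 ≤ K → ∀ (g : ZMod M → ℂ) (x : ZMod M), mU Q (Q * K) 0 g x x = Eb Q K g x := by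
    intro K hK g x
    rw [hdiag Q hQ dvd_rfl K hK g x, Nat.mul_div_cancel_left K hQ]
  have hd2 : ∀ (K : ℕ), 1 ≤ K → ∀ (g : ZMod M → ℂ) (x : ZMod M), mU q (Q * K) 0 g x x = Eb q (Q / q) (Eb Q K g) x := by
    intro K hK g x
    rw [hdiag q hq1 hqQ K hK g x]
    have h1 := Eb_comp q (Q / q) K g x
    rw [hqg] at h1
    rw [h1]
    congr 1
    rw [Nat.mul_comm (Q / q) K, Nat.mul_comm Q K]
    exact Nat.mul_div_assoc K hqQ
  have hAAeq : AA N P (hyb (hyb (fun l => Eb Q (Ks l) (f l)) (fun l => Eb q (Q / q) (Eb Q (Ks l) (f l))) i)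
      (hyb (fun l => Eb Q (Kl l) (f l)) (fun l => Eb q (Q / q) (Eb Q (Kl l) (f l))) i) l) =
      AA N P (fun k x => VV k x x) := by
    congr 1
    funext k x
    rw [hVV]
    simp only [hyb, hF1, hF2, hV1, hV2, hd1 _ (hKs _), hd2 _ (hKs _), hd1 _ (hKl1 _), hd2 _ (hKl1 _)]
  rw [hAAeq]
  have hmain := hsg (fun k => 8 / (Q * Ks k : ℕ)) VV (fun k => ⟨by positivity, by
      have hp : (0 : ℝ) < (Q * Ks k : ℕ) := by exact_mod_cast Nat.mul_pos hQ (hKs k)
      rw [div_mul_eq_mul_div, div_le_iff₀ hp]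
      have := hW k
      push_cast
      linarith⟩) hVs i hkill l η hη hηN
  refine hmain.trans ?_
  have hn2 : n2 (fun x => VV l x x) ≤ 4 * n2 (fun x => Eb Q (Ks l) (f l) x - Eb Q (Kl l) (f l) x) := by
    set d : ZMod M → ℂ := fun x => Eb Q (Ks l) (f l) x - Eb Q (Kl l) (f l) x with hd
    have hn := n2_nonneg d
    have hE : n2 (Eb q (Q / q) d) ≤ n2 d := n2_Eb_le q (Q / q) d
    have hEd : ∀ x, Eb q (Q / q) d x = Eb q (Q / q) (Eb Q (Ks l) (f l)) x - Eb q (Q / q) (Eb Q (Kl l) (f l)) x := by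
      intro x
      rw [hd, Eb_sub]
    have hVl : ∀ x, VV l x x = hyb F1 F2 i l (x, x) - hyb V1 V2 i l (x, x) := by
      intro x
      rw [hVV]; simp [hyb]
    rcases lt_trichotomy l i with h | h | h
    · have e1 : (fun x => VV l x x) = d := by
        funext x
        rw [hVl, hd]
        simp only [hyb, h, if_true, hF1, hV1, hd1 _ (hKs _), hd1 _ (hKl1 _)]
      rw [e1]
      linarith
    · have e1 : (fun x => VV l x x) = fun x => d x + (-1 : ℂ) * Eb q (Q / q) d x := by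
        funext x
        rw [hVl, hEd, hd, h]
        simp only [hyb, lt_irrefl, if_false, if_true, hF1, hF2, hV1, hV2, hd1 _ (hKs _), hd2 _ (hKs _),
          hd1 _ (hKl1 _), hd2 _ (hKl1 _)]
        ring
      rw [e1]
      have h1 := Pool.Agent.EQD.n2_add_le d (fun x => (-1 : ℂ) * Eb q (Q / q) d x)
      have h2 : n2 (fun x => (-1 : ℂ) * Eb q (Q / q) d x) = n2 (Eb q (Q / q) d) := by
        unfold n2
        congr 1
        funext x
        show ‖(-1 : ℂ) * Eb q (Q / q) d x‖ ^ 2 = _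
        rw [neg_one_mul, norm_neg]
      rw [h2] at h1
      linarith
    · have e1 : (fun x => VV l x x) = Eb q (Q / q) d := by
        funext x
        have h3 : ¬ l < i := not_lt.mpr h.le
        have h4 : l ≠ i := ne_of_gt h
        rw [hVl, hEd]
        simp only [hyb, h3, h4, if_false, hF2, hV2, hd2 _ (hKs _), hd2 _ (hKl1 _)]
      rw [e1]
      linarith
  have hCR : (0 : ℝ) ≤ C₁ / R := by positivity
  have h5 := mul_le_mul_of_nonneg_left hn2 hCR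
  have h6 : (C₁ : ℝ) / R * (4 * n2 (fun x => Eb Q (Ks l) (f l) x - Eb Q (Kl l) (f l) x)) =
      4 * C₁ / R * n2 (fun x => Eb Q (Ks l) (f l) x - Eb Q (Kl l) (f l) x) := by ring
  linarith

end group

end TaAux

theorem levelA {n : ℕ} {P : Fin n → ℤ[X]} {e : Fin n → ℕ} {i₀ : Fin n} (h : GDeg P e i₀) (B : ℕ) (κ : Fin n → ℕ) (hB : 1 ≤ B) :
    ∃ C t₁ : ℕ, 1 ≤ C ∧ ∀ t, t₁ ≤ t → ∀ a b : ℕ, 4 ^ (t + 1) ≤ a → ∀ (M : ℕ) [NeZero M], QB B (t + 1) ∣ M → ∀ N : ℕ → ℕ, Sc N →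
      ∀ f : Fin n → ZMod M → ℂ, (∀ l, Bd (f l)) → ∀ i : Fin n,
      MaxLe (Icc a b) (fun j x =>
        AA (N j) P (hyb (fun l => Eb (QB B (t + 1)) (Kshort B (κ l) t j (N j) (e l)) (f l))
          (fun l => Eb (QB B t) (QB B (t + 1) / QB B t) (Eb (QB B (t + 1)) (Kshort B (κ l) t j (N j) (e l)) (f l))) i) x -
        AA (N j) P (hyb (fun l => Eb (QB B (t + 1)) (Klong B t (N j) (e l)) (f l))
          (fun l => Eb (QB B t) (QB B (t + 1) / QB B t) (Eb (QB B (t + 1)) (Klong B t (N j) (e l)) (f l))) i) x)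
        ((C : ℝ) / 2 ^ (t / C)) := by
  obtain ⟨C₁, N₀, hC₁p, hsg⟩ := Pool.Agent.EQD.G.sgain h
  obtain ⟨D, hD⟩ : ∃ D : ℕ, ∀ l, e l ≤ D :=
    ⟨∑ l, e l, fun l => Finset.single_le_sum (f := e) (fun _ _ => Nat.zero_le _) (mem_univ l)⟩
  obtain ⟨κm, hκm⟩ : ∃ κm : ℕ, ∀ l, κ l ≤ κm :=
    ⟨∑ l, κ l, fun l => Finset.single_le_sum (f := κ) (fun _ _ => Nat.zero_le _) (mem_univ l)⟩
  obtain ⟨tq, htq⟩ := QB_small (2 * C₁ + 2) B
  obtain ⟨j₁, hj₁⟩ := QB_tj 2 B
  set W : ℕ := 2 ^ (κm + D + 5) with hWdef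
  set K := n * (n * (C₁ * 3200)) with hK
  refine ⟨K * (D + κm + 4 + 2 * C₁) + 2 * C₁, max (max tq C₁) (max j₁ (2 * κm + 2)) + N₀ + 2 * C₁ * (κm + D + 5), by omega, ?_⟩
  intro t ht a b ha M _ hQM N hN f hf i
  have ht0 : max (max tq C₁) (max j₁ (2 * κm + 2)) ≤ t := by omega
  have ht1 : tq ≤ t := le_trans (le_max_left _ _) (le_trans (le_max_left _ _) ht0)
  have ht2 : C₁ ≤ t := le_trans (le_max_right _ _) (le_trans (le_max_left _ _) ht0)
  have ht3 : j₁ ≤ t := le_trans (le_max_left _ _) (le_trans (le_max_right _ _) ht0)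
  have ht4 : 2 * κm + 2 ≤ t := le_trans (le_max_right _ _) (le_trans (le_max_right _ _) ht0)
  have htN : N₀ ≤ t := by omega
  have htW : 2 * C₁ * (κm + D + 5) ≤ t := by omega
  have ht5 : 1 ≤ t := by omega
  set R := 2 ^ (t / C₁) with hRdef
  have hR : 2 ≤ R := by
    have h1 : 1 ≤ t / C₁ := (Nat.one_le_div_iff hC₁p).mpr ht2
    calc 2 = 2 ^ 1 := rfl
      _ ≤ 2 ^ (t / C₁) := Nat.pow_le_pow_right (by norm_num) h1
  have hRpow : R ^ C₁ ≤ 2 ^ t := by
    rw [hRdef, ← pow_mul]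
    exact Nat.pow_le_pow_right (by norm_num) (Nat.div_mul_le_self t C₁)
  have hRr : (0 : ℝ) < R := by
    have : 0 < R := by omega
    exact_mod_cast this
  have hj4 : ∀ j ∈ Icc a b, 4 ^ (t + 1) ≤ j := fun j hj => ha.trans (mem_Icc.mp hj).1
  have ht4p : t < 4 ^ (t + 1) :=
    lt_of_lt_of_le (Nat.lt_pow_self (by norm_num : 1 < 4)) (Nat.pow_le_pow_right (by norm_num) (Nat.le_succ t))
  have hjt : ∀ j ∈ Icc a b, t ≤ j := fun j hj => (ht4p.le).trans (hj4 j hj)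
  have hQ2 : ∀ j ∈ Icc a b, QB B (t + 1) ^ (2 * C₁ + 2) ≤ 2 ^ j := fun j hj => htq t ht1 j (hj4 j hj)
  have hQp := QB_pos B (t + 1)
  have hQ1 : ∀ j ∈ Icc a b, QB B (t + 1) ≤ 2 ^ j := fun j hj => by
    refine le_trans ?_ (hQ2 j hj)
    exact Nat.le_self_pow (by omega) _
  have hlens := fun (l : Fin n) j (hj : j ∈ Icc a b) => T1aAux.lens B (κ l) t j (N j) (e l) j₁ (h.pos l) (hN j).1 (hN j).2
    (hj4 j hj) hj₁ (ht3.trans (hjt j hj)) (by have := hκm l; have := hjt j hj; omega) (hQ1 j hj)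
  -- one term
  have key : ∀ j ∈ Icc a b, ∀ l : Fin n,
      n2 (AA (N j) P (hyb (hyb (fun l => Eb (QB B (t + 1)) (Kshort B (κ l) t j (N j) (e l)) (f l))
          (fun l => Eb (QB B t) (QB B (t + 1) / QB B t) (Eb (QB B (t + 1)) (Kshort B (κ l) t j (N j) (e l)) (f l))) i)
        (hyb (fun l => Eb (QB B (t + 1)) (Klong B t (N j) (e l)) (f l))
          (fun l => Eb (QB B t) (QB B (t + 1) / QB B t) (Eb (QB B (t + 1)) (Klong B t (N j) (e l)) (f l))) i) l)) ≤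
      4 * C₁ / R * n2 (fun x => Eb (QB B (t + 1)) (Kshort B (κ l) t j (N j) (e l)) (f l) x -
        Eb (QB B (t + 1)) (Klong B t (N j) (e l)) (f l) x) + 1 / 2 ^ (j / C₁) := by
    intro j hj l
    have hNj := hN j
    have hN1 : 1 ≤ N j := le_trans Nat.one_le_two_pow hNj.1
    have hW1 : 1 ≤ W := Nat.one_le_two_pow
    have hNbig : N₀ ≤ N j := by
      have h1 : t ≤ 2 ^ t := Nat.lt_two_pow_self.le
      have h2 : 2 ^ t ≤ 2 ^ j := Nat.pow_le_pow_right (by norm_num) (hjt j hj)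
      exact htN.trans (h1.trans (h2.trans hNj.1))
    have hQW : (QB B (t + 1) * W) ^ C₁ ≤ N j := by
      refine le_trans ?_ hNj.1
      have h1 : ((QB B (t + 1) * W) ^ C₁) ^ 2 ≤ (2 ^ j) ^ 2 := by
        calc ((QB B (t + 1) * W) ^ C₁) ^ 2 = QB B (t + 1) ^ (2 * C₁) * W ^ (2 * C₁) := by
              rw [← pow_mul, mul_comm C₁ 2, mul_pow]
          _ ≤ 2 ^ j * 2 ^ j := by
              refine Nat.mul_le_mul ?_ ?_
              · exact (Nat.pow_le_pow_right hQp (by omega)).trans (hQ2 j hj)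
              · rw [hWdef, ← pow_mul]
                refine Nat.pow_le_pow_right (by norm_num) ?_
                calc (κm + D + 5) * (2 * C₁) = 2 * C₁ * (κm + D + 5) := by ring
                  _ ≤ t := htW
                  _ ≤ j := hjt j hj
          _ = (2 ^ j) ^ 2 := by ring
      exact (Nat.pow_le_pow_iff_left (by norm_num : (2 : ℕ) ≠ 0)).mp h1
    refine TaAux.term (C₁ := C₁) (e := e) (N j) R (QB B (t + 1)) (QB B t) W hQM
      (fun lam V h1 h2 i h3 l η h4 h5 => hsg M (N j) R (QB B (t + 1)) (QB B t) W lam V hNbig hR hQM hW1 hQW h1 h2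
        (QB_dvd B (Nat.le_succ t)) (fun r hr1 hr2 => dvd_QB hB ht5 hr1 (hr2.trans hRpow)) i h3 l η h4 h5)
      hQp (QB_dvd B (Nat.le_succ t)) (fun k => Kshort B (κ k) t j (N j) (e k)) (fun k => Klong B t (N j) (e k))
      (fun k => (hlens k j hj).1) (fun k => (hlens k j hj).2.2.1) ?_ f hf i l _ (by positivity) ?_
    · intro k
      have h1 := (hlens k j hj).2.1
      have hQr : (0 : ℝ) < QB B (t + 1) := by exact_mod_cast hQp
      rw [one_div, inv_mul_le_iff₀ (by positivity)] at h1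
      have h2 : ((N j : ℕ) : ℝ) ^ e k ≤ 2 ^ e k * 2 ^ (e k * j) := by
        have h3 : N j ^ e k ≤ 2 ^ e k * 2 ^ (e k * j) := by
          calc N j ^ e k ≤ (2 ^ (j + 1)) ^ e k := Nat.pow_le_pow_left hNj.2.le _
            _ = 2 ^ e k * 2 ^ (e k * j) := by
                rw [← pow_mul, ← pow_add]
                congr 1
                ring
        exact_mod_cast h3
      have h3 : (2 : ℝ) ^ e k ≤ 2 ^ D := pow_le_pow_right₀ (by norm_num) (hD k)
      have h4 : (2 : ℝ) ^ (κ k + 2) ≤ 2 ^ (κm + 2) := pow_le_pow_right₀ (by norm_num) (by have := hκm k; omega)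
      have h5 : (W : ℝ) = 8 * 2 ^ D * 2 ^ (κm + 2) := by
        rw [hWdef]
        push_cast
        rw [show κm + D + 5 = 3 + D + (κm + 2) by ring, pow_add, pow_add]
        norm_num
      have h6 : (0 : ℝ) ≤ (Kshort B (κ k) t j (N j) (e k) : ℝ) := Nat.cast_nonneg _
      calc 8 * ((N j : ℕ) : ℝ) ^ e k ≤ 8 * (2 ^ e k * 2 ^ (e k * j)) := by linarith
        _ ≤ 8 * (2 ^ D * ((2 ^ (κ k + 2) * (QB B (t + 1) : ℝ)) * (Kshort B (κ k) t j (N j) (e k) : ℝ))) := by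
            gcongr
        _ ≤ 8 * (2 ^ D * ((2 ^ (κm + 2) * (QB B (t + 1) : ℝ)) * (Kshort B (κ k) t j (N j) (e k) : ℝ))) := by
            gcongr
        _ = W * ((QB B (t + 1) : ℝ) * (Kshort B (κ k) t j (N j) (e k) : ℝ)) := by
            rw [h5]
            ring
    · have h1 : ((1 : ℝ) / 2 ^ (j / C₁)) ^ C₁ = 1 / 2 ^ (j / C₁ * C₁) := by
        rw [div_pow, one_pow, ← pow_mul]
      rw [h1, div_mul_eq_mul_div, one_mul, le_div_iff₀ (by positivity), one_mul]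
      have h2 : 2 ^ (j / C₁ * C₁) ≤ N j := (Nat.pow_le_pow_right (by norm_num) (Nat.div_mul_le_self j C₁)).trans hNj.1
      exact_mod_cast h2
  -- sum over the scales
  have h4C : (0 : ℝ) ≤ 4 * C₁ / R := by positivity
  have hsum : ∀ l : Fin n, ∑ j ∈ Icc a b,
      n2 (AA (N j) P (hyb (hyb (fun l => Eb (QB B (t + 1)) (Kshort B (κ l) t j (N j) (e l)) (f l))
          (fun l => Eb (QB B t) (QB B (t + 1) / QB B t) (Eb (QB B (t + 1)) (Kshort B (κ l) t j (N j) (e l)) (f l))) i)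
        (hyb (fun l => Eb (QB B (t + 1)) (Klong B t (N j) (e l)) (f l))
          (fun l => Eb (QB B t) (QB B (t + 1) / QB B t) (Eb (QB B (t + 1)) (Klong B t (N j) (e l)) (f l))) i) l)) ≤
      ((C₁ : ℝ) * 3200) * (D + t + κm + 4) / R := by
    intro l
    refine (Finset.sum_le_sum fun j hj => key j hj l).trans ?_
    rw [Finset.sum_add_distrib, ← Finset.mul_sum]
    have hA : (0 : ℝ) < 1 / (2 ^ (κ l + 2) * (QB B (t + 1) : ℝ)) := by
      have : (0 : ℝ) < QB B (t + 1) := by exact_mod_cast hQp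
      positivity
    have hen := energy (QB B (t + 1)) (Icc a b) (fun j => Kshort B (κ l) t j (N j) (e l)) (fun j => Klong B t (N j) (e l))
      (e l) (e l + t + κ l + 3) (h.pos l) _ hA (fun j hj => (hlens l j hj).1) (fun j hj => (hlens l j hj).2.1)
      (fun j hj => (hlens l j hj).2.2.1) (fun j hj => (hlens l j hj).2.2.2) (f l)
    have h1 := T1aAux.n2_le_one (hf l)
    have h0 := n2_nonneg (f l)
    have h2 : (e l : ℝ) ≤ D := by exact_mod_cast hD l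
    have h2' : (κ l : ℝ) ≤ κm := by exact_mod_cast hκm l
    have h3 : (400 : ℝ) * (((e l + t + κ l + 3 : ℕ) : ℝ) + 1) * n2 (f l) ≤ 400 * ((D : ℝ) + t + κm + 4) := by
      have h4 : (0 : ℝ) ≤ 400 * (((e l + t + κ l + 3 : ℕ) : ℝ) + 1) := by positivity
      have h5 : (400 : ℝ) * (((e l + t + κ l + 3 : ℕ) : ℝ) + 1) * n2 (f l) ≤ 400 * (((e l + t + κ l + 3 : ℕ) : ℝ) + 1) := by
        nlinarith
      refine h5.trans ?_
      push_cast
      linarith
    have h6 := mul_le_mul_of_nonneg_left (hen.trans h3) h4C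
    have h7 := sum_half_Icc C₁ hC₁p a b
    have h8 : 2 * (C₁ : ℝ) / 2 ^ (a / C₁) ≤ 2 * C₁ / R := by
      refine div_le_div_of_nonneg_left (by positivity) hRr ?_
      rw [hRdef]
      push_cast
      refine pow_le_pow_right₀ (by norm_num) (Nat.div_le_div_right (ht4p.le.trans ha))
    have h9 : 4 * (C₁ : ℝ) / R * (400 * ((D : ℝ) + t + κm + 4)) + 2 * C₁ / R =
        ((C₁ : ℝ) * 1600 * (D + t + κm + 4) + 2 * C₁) / R := by
      field_simp
      ring
    have h10 : ((C₁ : ℝ) * 1600 * (D + t + κm + 4) + 2 * C₁) / R ≤ ((C₁ : ℝ) * 3200) * (D + t + κm + 4) / R := by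
      refine div_le_div_of_nonneg_right ?_ hRr.le
      have h11 : (0 : ℝ) ≤ C₁ := Nat.cast_nonneg _
      have h12 : (0 : ℝ) ≤ (D : ℝ) + t + κm := by positivity
      nlinarith [mul_nonneg h11 h12]
    linarith
  have hmax := MaxLe.sum (s := Icc a b) (univ : Finset (Fin n))
    (F := fun l j => AA (N j) P (hyb (hyb (fun l => Eb (QB B (t + 1)) (Kshort B (κ l) t j (N j) (e l)) (f l))
          (fun l => Eb (QB B t) (QB B (t + 1) / QB B t) (Eb (QB B (t + 1)) (Kshort B (κ l) t j (N j) (e l)) (f l))) i)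
        (hyb (fun l => Eb (QB B (t + 1)) (Klong B t (N j) (e l)) (f l))
          (fun l => Eb (QB B t) (QB B (t + 1) / QB B t) (Eb (QB B (t + 1)) (Klong B t (N j) (e l)) (f l))) i) l))
    (B := fun _ => ((C₁ : ℝ) * 3200) * (D + t + κm + 4) / R)
    (fun l _ => MaxLe.of_sum (hsum l))
  refine MaxLe.mono (Finset.Subset.refl _) ?_ ?_ hmax
  · refine le_trans (le_of_eq ?_) (T1aAux.final K D κm C₁ t hC₁p)
    rw [Finset.sum_const, Finset.card_univ, Fintype.card_fin, nsmul_eq_mul, hK, hRdef]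
    push_cast
    ring
  · intro j _ x
    rw [AA_sub_hyb]

end Pool.Agent.EQD.Lo.G
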