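import Pool.Agent.Lib.EQG.Lo.Fin

/-!
# Two functions: all pairs of polynomials except the scalene ones

For `n = 2` some base works unless `P₁`, `P₂` and `P₁ - P₂` have the same positive degree, or one of the three is constant; in the last case the two
functions are merged.
-/

set_option autoImplicit false

open Finset Polynomial MeasureTheory Filter Topology
open scoped ENNReal NNReal

namespace Pool.Agent.EQD.Lo.G

open Pool.Agent.HLT Pool.Agent.NLT Pool.Agent.NLG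
open Pool.Agent.EQD.G (GDeg MidG LowG Sw)

open Pool.Agent.EQD.G (dst edst gdeg_of)

section dyn

variable {X : Type} [MeasurableSpace X] {μ : Measure X} [IsProbabilityMeasure μ]

/-- One function. -/
theorem one_fn (H : Half) (T : Equiv.Perm X) (hT : IMP μ T) (P : ℤ[X]) (hP : 1 ≤ P.natDegree) (f : X → ℂ) (hf : MemLp f ⊤ μ) :
    ∀ᵐ x ∂μ, ∃ L : ℂ, Tendsto (fun N : ℕ => (N : ℂ)⁻¹ *
      ∑ m ∈ Finset.Icc 1 N, f ((T ^ (P.eval (m : ℤ))) x)) atTop (𝓝 L) := by
  have h := (final (μ := μ) H 1 T hT (fun _ => P) 0 (fun j => by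
    rw [Subsingleton.elim j 0]; simpa [dst] using hP) (fun a b _ => Subsingleton.elim a b) (fun _ => f) (fun _ => hf)).1
  simpa using h

/-- Two functions, a base exists. -/
theorem two_base (H : Half) (T : Equiv.Perm X) (hT : IMP μ T) (P Q : ℤ[X]) (h1 : 1 ≤ P.natDegree) (h2 : 1 ≤ (Q - P).natDegree)
    (hne : P.natDegree ≠ (Q - P).natDegree) (f g : X → ℂ) (hf : MemLp f ⊤ μ) (hg : MemLp g ⊤ μ) :
    ∀ᵐ x ∂μ, ∃ L : ℂ, Tendsto (fun N : ℕ => (N : ℂ)⁻¹ *
      ∑ m ∈ Finset.Icc 1 N, f ((T ^ (P.eval (m : ℤ))) x) * g ((T ^ (Q.eval (m : ℤ))) x)) atTop (𝓝 L) := by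
  have hd0 : dst ![P, Q] 0 0 = P.natDegree := by simp [dst]
  have hd1 : dst ![P, Q] 0 1 = (Q - P).natDegree := by simp [dst]
  have h := (final (μ := μ) H 2 T hT ![P, Q] 0 (fun j => by
    fin_cases j
    · simpa [hd0] using h1
    · simpa [hd1] using h2) (fun a b hab => by
    fin_cases a <;> fin_cases b
    · rfl
    · exact absurd (by simpa [hd0, hd1] using hab) hne
    · exact absurd (by simpa [hd0, hd1] using hab.symm) hne
    · rfl) ![f, g] (fun i => by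
      fin_cases i
      · simpa using hf
      · simpa using hg)).1
  simpa [Fin.prod_univ_two] using h

theorem const_fn (c : ℂ) : Tendsto (fun N : ℕ => (N : ℂ)⁻¹ * ∑ _m ∈ Finset.Icc 1 N, c) atTop (𝓝 c) := by
  refine tendsto_const_nhds.congr' ?_
  filter_upwards [eventually_ge_atTop 1] with N hN
  have : (N : ℂ) ≠ 0 := by exact_mod_cast (by omega : N ≠ 0)
  simp [Finset.sum_const, Nat.card_Icc]
  field_simp

theorem any_fn (H : Half) (T : Equiv.Perm X) (hT : IMP μ T) (P : ℤ[X]) (f : X → ℂ) (hf : MemLp f ⊤ μ) :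
    ∀ᵐ x ∂μ, ∃ L : ℂ, Tendsto (fun N : ℕ => (N : ℂ)⁻¹ *
      ∑ m ∈ Finset.Icc 1 N, f ((T ^ (P.eval (m : ℤ))) x)) atTop (𝓝 L) := by
  by_cases hP : 1 ≤ P.natDegree
  · exact one_fn H T hT P hP f hf
  · obtain ⟨c, hc⟩ := Polynomial.natDegree_eq_zero.1 (by omega : P.natDegree = 0)
    refine Filter.Eventually.of_forall fun x => ⟨f ((T ^ c) x), ?_⟩
    subst hc
    simpa using const_fn (f ((T ^ c) x))

theorem two_const (H : Half) (T : Equiv.Perm X) (hT : IMP μ T) (P Q : ℤ[X]) (h1 : P.natDegree = 0)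
    (f g : X → ℂ) (hg : MemLp g ⊤ μ) :
    ∀ᵐ x ∂μ, ∃ L : ℂ, Tendsto (fun N : ℕ => (N : ℂ)⁻¹ *
      ∑ m ∈ Finset.Icc 1 N, f ((T ^ (P.eval (m : ℤ))) x) * g ((T ^ (Q.eval (m : ℤ))) x)) atTop (𝓝 L) := by
  obtain ⟨c, hc⟩ := Polynomial.natDegree_eq_zero.1 h1
  subst hc
  filter_upwards [any_fn H T hT Q g hg] with x hx
  obtain ⟨L, hL⟩ := hx
  refine ⟨f ((T ^ c) x) * L, (hL.const_mul (f ((T ^ c) x))).congr fun N => ?_⟩
  simp only [Polynomial.eval_C, ← Finset.mul_sum]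
  ring

/-- All pairs which are not scalene. -/
theorem two (H : Half) (T : Equiv.Perm X) (hT : IMP μ T) (P Q : ℤ[X])
    (hP : ¬ (1 ≤ P.natDegree ∧ P.natDegree = Q.natDegree ∧ P.natDegree = (P - Q).natDegree))
    (f g : X → ℂ) (hf : MemLp f ⊤ μ) (hg : MemLp g ⊤ μ) :
    ∀ᵐ x ∂μ, ∃ L : ℂ, Tendsto (fun N : ℕ => (N : ℂ)⁻¹ *
      ∑ m ∈ Finset.Icc 1 N, f ((T ^ (P.eval (m : ℤ))) x) * g ((T ^ (Q.eval (m : ℤ))) x)) atTop (𝓝 L) := by
  have hsym : (Q - P).natDegree = (P - Q).natDegree := by rw [← neg_sub, natDegree_neg]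
  by_cases hP0 : P.natDegree = 0
  · exact two_const H T hT P Q hP0 f g hg
  by_cases hQ0 : Q.natDegree = 0
  · filter_upwards [two_const H T hT Q P hQ0 g f hf] with x hx
    obtain ⟨L, hL⟩ := hx
    refine ⟨L, hL.congr fun N => ?_⟩
    congr 1
    exact Finset.sum_congr rfl fun m _ => mul_comm _ _
  by_cases hD0 : (P - Q).natDegree = 0
  · obtain ⟨c, hc⟩ := Polynomial.natDegree_eq_zero.1 hD0
    have hPQ : P = Q + C c := by rw [hc]; ring
    have hm : MemLp (fun y => f ((T ^ c) y) * g y) ⊤ μ := by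
      have h1 : MemLp (fun y => f ((T ^ c) y)) ⊤ μ :=
        hf.comp_measurePreserving (Pool.Agent.Lib.Pf720ae.mp_zpow hT.1 hT.2.1 hT.2.2 c)
      have h3 : MemLp ((fun y => f ((T ^ c) y)) * g) ⊤ μ := hg.mul (p := ⊤) (q := ⊤) (r := ⊤) h1
      exact h3
    filter_upwards [any_fn H T hT Q _ hm] with x hx
    obtain ⟨L, hL⟩ := hx
    refine ⟨L, hL.congr fun N => ?_⟩
    congr 1
    refine Finset.sum_congr rfl fun m _ => ?_
    have : (T ^ (P.eval (m : ℤ))) x = (T ^ c) ((T ^ (Q.eval (m : ℤ))) x) := by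
      rw [hPQ, eval_add, eval_C, add_comm, zpow_add]
      rfl
    rw [this]
  by_cases h1 : P.natDegree = (P - Q).natDegree
  · have h2 : Q.natDegree ≠ (P - Q).natDegree := fun h => hP ⟨by omega, by omega, h1⟩
    filter_upwards [two_base H T hT Q P (by omega) (by omega) h2 g f hg hf] with x hx
    obtain ⟨L, hL⟩ := hx
    refine ⟨L, hL.congr fun N => ?_⟩
    congr 1
    exact Finset.sum_congr rfl fun m _ => mul_comm _ _
  · exact two_base H T hT P Q (by omega) (by omega) (by omega) f g hf hg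

end dyn

end Pool.Agent.EQD.Lo.G
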