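import Pool.Agent.Lib.EQD.XLim
import Pool.Agent.Lib.EQG.Defs

/-!
# Convergence of the averages of the averaged functions, with a vector of widths (fork of `EQD/XLim`)
-/

set_option autoImplicit false

open Finset Polynomial MeasureTheory Filter Topology
open scoped ENNReal NNReal

namespace Pool.Agent.EQD.Lo.G

open Pool.Agent.HLT Pool.Agent.NLT Pool.Agent.NLG
open Pool.Agent.EQD.G (GDeg MidG LowG Sw)

open XLimAux

variable {X : Type} [MeasurableSpace X] {μ : Measure X} [IsProbabilityMeasure μ]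

/-- The averages of `EwX f` are asymptotic to the averages of the limit functions `g`, which are `T ^ Q`-invariant. -/
theorem xlim_g (T : Equiv.Perm X) (hT : IMP μ T) {n : ℕ} (P : Fin n → ℤ[X]) (e : Fin n → ℕ) (he : ∀ l, 1 ≤ e l)
    (B t₀ : ℕ) (κ : Fin n → ℕ) (N : ℕ → ℕ) (hN : Sc N) (f : Fin n → X → ℂ) (hfm : ∀ l, Measurable (f l)) (hf : ∀ l x, ‖f l x‖ ≤ 1) :
    ∃ g : Fin n → X → ℂ, (∀ l, Measurable (g l)) ∧ (∀ l x, ‖g l x‖ ≤ 1) ∧
      (∀ l, ∀ᵐ x ∂μ, Tendsto (fun K : ℕ => EX T (QB B t₀) K (f l) x) atTop (𝓝 (g l x))) ∧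
      (∀ l, ∀ᵐ x ∂μ, g l ((T ^ ((QB B t₀ : ℕ) : ℤ)) x) = g l x) ∧
      (∀ᵐ x ∂μ, Tendsto (fun j : ℕ => AX T (N j) P (fun l => EwX T B t₀ (tj j) (N j ^ e l / 2 ^ κ l) (f l)) x -
        AX T (N j) P g x) atTop (𝓝 0)) ∧
      ∀ᵐ x ∂μ, ∃ L : ℂ, Tendsto (fun N' : ℕ => AX T N' P g x) atTop (𝓝 L) := by
  have hQ1 : 1 ≤ QB B t₀ := QB_pos _ _
  have hlim : ∀ l, ∃ g : X → ℂ, Measurable g ∧ (∀ x, ‖g x‖ ≤ 1) ∧
      ∀ᵐ x ∂μ, Tendsto (fun K : ℕ => EX T (QB B t₀) K (f l) x) atTop (𝓝 (g x)) := by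
    intro l
    obtain ⟨g₀, hg₀, hg₁⟩ := measurable_limit_of_tendsto_metrizable_ae (μ := μ)
      (f := fun K => EX T (QB B t₀) K (f l)) (L := atTop)
      (fun K => (meas_EX hT (QB B t₀) K (hfm l)).aemeasurable) (ex_lim T hT (QB B t₀) (hfm l) (hf l))
    refine ⟨fun x => if ‖g₀ x‖ ≤ 1 then g₀ x else 0, ?_, ?_, ?_⟩
    · exact Measurable.ite (measurableSet_le hg₀.norm measurable_const) hg₀ measurable_const
    · intro x
      dsimp only
      split_ifs with h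
      · exact h
      · simp
    · filter_upwards [hg₁] with x hx
      have h1 : ‖g₀ x‖ ≤ 1 := le_of_tendsto' hx.norm (fun K => norm_EX_le T (QB B t₀) K (hf l) x)
      rw [if_pos h1]
      exact hx
  choose g hgm hg1 hgt using hlim
  have hinv : ∀ l, ∀ᵐ x ∂μ, ∀ m : ℤ, g l ((T ^ ((QB B t₀ : ℕ) : ℤ)) ((T ^ m) x)) = g l ((T ^ m) x) := by
    intro l
    filter_upwards [ae_orbit hT (hgt l)] with x hx m
    refine inv_lim T (QB B t₀) (hf l) (x := (T ^ m) x) (hx m) ?_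
    have h1 := hx (((QB B t₀ : ℕ) : ℤ) + m)
    rw [zpow_add, Equiv.Perm.mul_apply] at h1
    exact h1
  refine ⟨g, hgm, hg1, hgt, fun l => ?_, ?_, ?_⟩
  · filter_upwards [hinv l] with x hx
    simpa using hx 0
  · have hdec : ∀ l, ∀ᵐ x ∂μ, ∀ ε : ℝ, 0 < ε → ∃ J : ℕ, ∀ j, J ≤ j → ∀ N' : ℕ,
        (∑ t ∈ range N', ((‖EwX T B t₀ (tj j) (N j ^ e l / 2 ^ κ l) (f l) ((T ^ ((P l).eval (t : ℤ))) x) -
          g l ((T ^ ((P l).eval (t : ℤ))) x)‖₊ : ℝ≥0) : ℝ)) / (N' : ℝ) ≤ ε := by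
      intro l
      refine decay hT (P l) (fun j x => ‖EwX T B t₀ (tj j) (N j ^ e l / 2 ^ κ l) (f l) x - g l x‖₊) (fun j => ?_)
        (fun j x => ?_) ?_
      · exact ((meas_EX hT _ _ (hfm l)).sub (hgm l)).nnnorm
      · rw [← NNReal.coe_le_coe, coe_nnnorm]
        calc ‖EwX T B t₀ (tj j) (N j ^ e l / 2 ^ κ l) (f l) x - g l x‖
            ≤ ‖EwX T B t₀ (tj j) (N j ^ e l / 2 ^ κ l) (f l) x‖ + ‖g l x‖ := norm_sub_le _ _
          _ ≤ 1 + 1 := add_le_add (norm_EX_le T _ _ (hf l) x) (hg1 l x)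
          _ = ((2 : ℝ≥0) : ℝ) := by norm_num
      · filter_upwards [hgt l] with x hx
        have h1 := hx.comp (K_tendsto (e l) (he l) B t₀ (κ l) N hN)
        have h2 := (h1.sub_const (g l x)).nnnorm
        rw [sub_self, nnnorm_zero] at h2
        exact h2
    filter_upwards [ae_all_iff.2 hdec] with x hx
    rw [Metric.tendsto_atTop]
    intro ε hε
    have hε' : 0 < ε / (n + 1 : ℝ) := by positivity
    choose J hJ using fun l => hx l _ hε'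
    refine ⟨∑ l, J l, fun j hj => ?_⟩
    rw [dist_zero_right]
    unfold AX
    rw [← tv_sub]
    calc ‖tv (N j) (fun t => ∏ i, EwX T B t₀ (tj j) (N j ^ e i / 2 ^ κ i) (f i) ((T ^ ((P i).eval (t : ℤ))) x) -
          ∏ i, g i ((T ^ ((P i).eval (t : ℤ))) x))‖
        ≤ tvr (N j) (fun t => ‖∏ i, EwX T B t₀ (tj j) (N j ^ e i / 2 ^ κ i) (f i) ((T ^ ((P i).eval (t : ℤ))) x) -
          ∏ i, g i ((T ^ ((P i).eval (t : ℤ))) x)‖) := norm_tv_le _ _
      _ ≤ tvr (N j) (fun t => ∑ i, ‖EwX T B t₀ (tj j) (N j ^ e i / 2 ^ κ i) (f i) ((T ^ ((P i).eval (t : ℤ))) x) -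
          g i ((T ^ ((P i).eval (t : ℤ))) x)‖) := by
        refine tvr_mono _ (fun t _ => ?_)
        exact prod_sub_le _ _ (fun i => norm_EX_le T _ _ (hf i) _) (fun i => hg1 i _)
      _ = ∑ i, (∑ t ∈ range (N j), ‖EwX T B t₀ (tj j) (N j ^ e i / 2 ^ κ i) (f i) ((T ^ ((P i).eval (t : ℤ))) x) -
          g i ((T ^ ((P i).eval (t : ℤ))) x)‖) / (N j : ℝ) := by
        unfold tvr
        rw [Finset.sum_comm, Finset.sum_div]
      _ ≤ ∑ _i : Fin n, ε / (n + 1 : ℝ) := by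
        refine Finset.sum_le_sum (fun i _ => ?_)
        have h1 := hJ i j ((Finset.single_le_sum (fun _ _ => Nat.zero_le _) (Finset.mem_univ i)).trans hj) (N j)
        simpa using h1
      _ < ε := by
        rw [Finset.sum_const, Finset.card_univ, Fintype.card_fin, nsmul_eq_mul]
        rw [mul_div_assoc', div_lt_iff₀ (by positivity)]
        nlinarith
  · filter_upwards [ae_all_iff.2 hinv] with x hx
    refine ⟨_, periodic_tv (QB B t₀) hQ1 _ (fun t => ?_)⟩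
    refine Finset.prod_congr rfl (fun l _ => ?_)
    have hper : Function.Periodic (fun m : ℤ => g l ((T ^ m) x)) ((QB B t₀ : ℕ) : ℤ) := by
      intro m
      have h1 := hx l m
      dsimp only
      rw [add_comm, zpow_add, Equiv.Perm.mul_apply]
      exact h1
    obtain ⟨k, hk⟩ := Polynomial.sub_dvd_eval_sub (((t + QB B t₀ : ℕ) : ℤ)) (t : ℤ) (P l)
    have h2 : ((t + QB B t₀ : ℕ) : ℤ) - (t : ℤ) = ((QB B t₀ : ℕ) : ℤ) := by push_cast; ring
    rw [h2] at hk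
    have h3 : (P l).eval (((t + QB B t₀ : ℕ) : ℤ)) = (P l).eval (t : ℤ) + k * ((QB B t₀ : ℕ) : ℤ) := by
      linear_combination hk
    rw [h3]
    exact (hper.int_mul k) ((P l).eval (t : ℤ))

theorem xlim (T : Equiv.Perm X) (hT : IMP μ T) {n : ℕ} (P : Fin n → ℤ[X]) (e : Fin n → ℕ) (he : ∀ l, 1 ≤ e l)
    (B t₀ : ℕ) (κ : Fin n → ℕ) (N : ℕ → ℕ) (hN : Sc N) (f : Fin n → X → ℂ) (hfm : ∀ l, Measurable (f l)) (hf : ∀ l x, ‖f l x‖ ≤ 1) :
    ∀ᵐ x ∂μ, ∃ L : ℂ, Tendsto (fun j : ℕ =>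
      AX T (N j) P (fun l => EwX T B t₀ (tj j) (N j ^ e l / 2 ^ κ l) (f l)) x) atTop (𝓝 L) := by
  obtain ⟨g, -, -, -, -, h5, h6⟩ := xlim_g (μ := μ) T hT P e he B t₀ κ N hN f hfm hf
  have hNt : Tendsto N atTop atTop := by
    refine tendsto_atTop_mono (fun j => ?_) tendsto_id
    exact (Nat.lt_two_pow_self).le.trans (hN j).1
  filter_upwards [h5, h6] with x h5x h6x
  obtain ⟨L, hL⟩ := h6x
  refine ⟨0 + L, ?_⟩
  have h7 := h5x.add (hL.comp hNt)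
  refine h7.congr (fun j => ?_)
  simp


end Pool.Agent.EQD.Lo.G
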