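import Pool.Agent.Lib.EQG.Lo.XTr
import Pool.Agent.Lib.EQG.Lo.XLm
import Pool.Agent.Lib.EQD.XScale
import Pool.Agent.Lib.EQD.XZero

/-!
# Convergence along scale sequences (fork of `EQD/XScale`, `EQD/XZero`)
-/

set_option autoImplicit false

open Finset Polynomial MeasureTheory Filter Topology
open scoped ENNReal NNReal

namespace Pool.Agent.EQD.Lo.G

open Pool.Agent.HLT Pool.Agent.NLT Pool.Agent.NLG
open Pool.Agent.EQD.G (GDeg MidG LowG Sw)

open XScaleAux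

theorem xscale {n : ℕ} {P : Fin n → ℤ[X]} {e : Fin n → ℕ} (he : ∀ l, 1 ≤ e l) (hM : MidG P e) (hL : LowG P e)
    (X : Type) [MeasurableSpace X] (μ : Measure X) [IsProbabilityMeasure μ] (T : Equiv.Perm X) (hT : IMP μ T)
    (f : Fin n → X → ℂ) (hfm : ∀ l, Measurable (f l)) (hf : ∀ l x, ‖f l x‖ ≤ 1) (N : ℕ → ℕ) (hN : Sc N) :
    ∀ᵐ x ∂μ, ∃ L : ℂ, Tendsto (fun j : ℕ => AX T (N j) P f x) atTop (𝓝 L) := by
  choose B κ t₀ J₀ hB hx using fun m : ℕ => xappr hM hL ((1 / 4 : ℝ) ^ m) (by positivity)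
  have h1 : ∀ᵐ x ∂μ, Tendsto (fun m => ⨆ j : ℕ, ⨆ (_ : J₀ m ≤ j), ‖AX T (N j) P f x -
        AX T (N j) P (fun l => EwX T (B m) (t₀ m) (tj j) (N j ^ e l / 2 ^ (κ m l)) (f l)) x‖ₑ) atTop (𝓝 0) := by
    refine theta_tendsto _ (fun m => ?_) (fun m => hx m X μ T hT f hfm hf N hN)
    refine Measurable.iSup (fun j => Measurable.iSup (fun _ => Measurable.enorm (Measurable.sub ?_ ?_)))
    · exact AX_meas hT _ P f hfm
    · exact AX_meas hT _ P _ (fun l => EwX_meas hT _ _ _ _ _ (hfm l))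
  have h2 : ∀ᵐ x ∂μ, ∀ m, ∃ L : ℂ, Tendsto (fun j : ℕ =>
      AX T (N j) P (fun l => EwX T (B m) (t₀ m) (tj j) (N j ^ e l / 2 ^ (κ m l)) (f l)) x) atTop (𝓝 L) :=
    ae_all_iff.mpr (fun m => xlim T hT P e he (B m) (t₀ m) (κ m) N hN f hfm hf)
  filter_upwards [h1, h2] with x hx1 hx2
  refine appr_seq _ _ J₀ _ hx1 (fun m j hj => ?_) hx2
  exact le_iSup₂_of_le (f := fun (j : ℕ) (_ : J₀ m ≤ j) => ‖AX T (N j) P f x -
        AX T (N j) P (fun l => EwX T (B m) (t₀ m) (tj j) (N j ^ e l / 2 ^ (κ m l)) (f l)) x‖ₑ) j hj le_rfl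

/-- For a totally ergodic map the limit is the product of the integrals. -/
theorem xscale_erg {n : ℕ} {P : Fin n → ℤ[X]} {e : Fin n → ℕ} (he : ∀ l, 1 ≤ e l) (hM : MidG P e) (hL : LowG P e)
    (X : Type) [MeasurableSpace X] (μ : Measure X) [IsProbabilityMeasure μ] (T : Equiv.Perm X) (hT : IMP μ T)
    (hE : ∀ q : ℕ, 1 ≤ q → Ergodic (T ^ q : Equiv.Perm X) μ)
    (f : Fin n → X → ℂ) (hfm : ∀ l, Measurable (f l)) (hf : ∀ l x, ‖f l x‖ ≤ 1) (N : ℕ → ℕ) (hN : Sc N) :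
    ∀ᵐ x ∂μ, Tendsto (fun j : ℕ => AX T (N j) P f x) atTop (𝓝 (∏ l, ∫ y, f l y ∂μ)) := by
  choose B κ t₀ J₀ hB hx using fun m : ℕ => xappr hM hL ((1 / 4 : ℝ) ^ m) (by positivity)
  have h1 : ∀ᵐ x ∂μ, Tendsto (fun m => ⨆ j : ℕ, ⨆ (_ : J₀ m ≤ j), ‖AX T (N j) P f x -
        AX T (N j) P (fun l => EwX T (B m) (t₀ m) (tj j) (N j ^ e l / 2 ^ (κ m l)) (f l)) x‖ₑ) atTop (𝓝 0) := by
    refine theta_tendsto _ (fun m => ?_) (fun m => hx m X μ T hT f hfm hf N hN)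
    refine Measurable.iSup (fun j => Measurable.iSup (fun _ => Measurable.enorm (Measurable.sub ?_ ?_)))
    · exact AX_meas hT _ P f hfm
    · exact AX_meas hT _ P _ (fun l => EwX_meas hT _ _ _ _ _ (hfm l))
  have h2 : ∀ᵐ x ∂μ, ∀ m, Tendsto (fun j : ℕ =>
      AX T (N j) P (fun l => EwX T (B m) (t₀ m) (tj j) (N j ^ e l / 2 ^ (κ m l)) (f l)) x) atTop
      (𝓝 (∏ l, ∫ y, f l y ∂μ)) := by
    refine ae_all_iff.mpr (fun m => ?_)
    obtain ⟨g, hgm, hg1, hg3, hg4, hg5, -⟩ := xlim_g T hT P e he (B m) (t₀ m) (κ m) N hN f hfm hf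
    have hQ : 1 ≤ QB (B m) (t₀ m) := Nat.pos_of_ne_zero (pow_ne_zero _ (Nat.factorial_ne_zero _))
    have hc : ∀ l, g l =ᵐ[μ] Function.const X (∫ y, f l y ∂μ) := by
      intro l
      have h3 : g l ∘ ⇑(T ^ QB (B m) (t₀ m) : Equiv.Perm X) =ᵐ[μ] g l := by
        filter_upwards [hg4 l] with x hx
        rw [zpow_natCast] at hx
        exact hx
      obtain ⟨c, hc⟩ := (hE _ hQ).quasiErgodic.ae_eq_const_of_ae_eq_comp_ae (hgm l).aestronglyMeasurable h3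
      have h4 : ∫ y, g l y ∂μ = c := by
        rw [integral_congr_ae hc]
        simp
      have h5 : Tendsto (fun K : ℕ => ∫ x, EX T (QB (B m) (t₀ m)) K (f l) x ∂μ) atTop (𝓝 (∫ y, g l y ∂μ)) := by
        refine tendsto_integral_of_dominated_convergence (fun _ => (1 : ℝ)) (fun K => ?_)
          (integrable_const _) (fun K => ae_of_all _ fun x => ?_) (hg3 l)
        · exact (EX_meas hT _ _ _ (hfm l)).aestronglyMeasurable
        · exact norm_tv_le_one K _ (fun t => hf l _)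
      have h6 : Tendsto (fun K : ℕ => ∫ x, EX T (QB (B m) (t₀ m)) K (f l) x ∂μ) atTop (𝓝 (∫ y, f l y ∂μ)) := by
        refine tendsto_const_nhds.congr' ?_
        filter_upwards [eventually_ge_atTop 1] with K hK
        exact (EX_int hT _ K hK (f l) (hfm l) (hf l)).symm
      have h7 : c = ∫ y, f l y ∂μ := by
        rw [← h4]
        exact tendsto_nhds_unique h5 h6
      rw [← h7]
      exact hc
    have hall : ∀ᵐ x ∂μ, ∀ l, ∀ k : ℤ, g l ((T ^ k) x) = ∫ y, f l y ∂μ := by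
      refine ae_all_iff.mpr (fun l => ae_all_iff.mpr (fun k => ?_))
      exact (mp_zpow hT k).quasiMeasurePreserving.ae (hc l)
    filter_upwards [hall, hg5] with x hx1 hx2
    have h8 : ∀ j, AX T (N j) P g x = ∏ l, ∫ y, f l y ∂μ := by
      intro j
      unfold AX
      simp only [hx1]
      refine tv_const _ ?_ _
      have h9 := (hN j).1
      have h10 : 0 < 2 ^ j := by positivity
      omega
    have h9 := hx2.add_const (∏ l, ∫ y, f l y ∂μ)
    rw [zero_add] at h9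
    refine h9.congr (fun j => ?_)
    rw [h8 j]
    ring
  filter_upwards [h1, h2] with x hx1 hx2
  refine appr_lim _ _ J₀ _ hx1 (fun m j hj => ?_) _ hx2
  exact le_iSup₂_of_le (f := fun (j : ℕ) (_ : J₀ m ≤ j) => ‖AX T (N j) P f x -
        AX T (N j) P (fun l => EwX T (B m) (t₀ m) (tj j) (N j ^ e l / 2 ^ (κ m l)) (f l)) x‖ₑ) j hj le_rfl

theorem xscale_zero {n : ℕ} {P : Fin n → ℤ[X]} {e : Fin n → ℕ} (he : ∀ l, 1 ≤ e l) (hM : MidG P e) (hL : LowG P e)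
    (X : Type) [MeasurableSpace X] (μ : Measure X) [IsProbabilityMeasure μ] (T : Equiv.Perm X) (hT : IMP μ T)
    (f : Fin n → X → ℂ) (hfm : ∀ l, Measurable (f l)) (hf : ∀ l x, ‖f l x‖ ≤ 1) (i : Fin n)
    (hz : ∀ q : ℕ, 1 ≤ q → ∀ᵐ x ∂μ, Tendsto (fun K : ℕ => EX T q K (f i) x) atTop (𝓝 0)) (N : ℕ → ℕ) (hN : Sc N) :
    ∀ᵐ x ∂μ, Tendsto (fun j : ℕ => AX T (N j) P f x) atTop (𝓝 0) := by
  classical
  have hmp : ∀ m : ℤ, MeasurePreserving ((T ^ m : Equiv.Perm X) : X → X) μ μ := fun m =>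
    Pool.Agent.Lib.Pf720ae.mp_zpow hT.1 hT.2.1 hT.2.2 m
  have hmeas : ∀ (N' : ℕ) (u : Fin n → X → ℂ), (∀ l, Measurable (u l)) → Measurable (AX T N' P u) := by
    intro N' u hu
    unfold AX tv
    refine Measurable.div_const ?_ _
    exact Finset.measurable_sum _ fun h _ => Finset.measurable_prod _ fun l _ => (hu l).comp (hmp _).measurable
  have hEm : ∀ (B t T' lam : ℕ) (u : X → ℂ), Measurable u → Measurable (EwX T B t T' lam u) := by
    intro B t T' lam u hu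
    unfold EwX EX tv
    refine Measurable.div_const ?_ _
    exact Finset.measurable_sum _ fun h _ => hu.comp (hmp _).measurable
  choose B κ t₀ J₀ hB hX using fun m : ℕ => xappr hM hL ((1 / 4 : ℝ) ^ m) (by positivity)
  set E : ℕ → ℕ → X → ℂ := fun m j =>
    AX T (N j) P (fun l => EwX T (B m) (t₀ m) (tj j) (N j ^ e l / 2 ^ (κ m l)) (f l)) with hE
  set Θ : ℕ → X → ℝ≥0∞ := fun m x => ⨆ j : ℕ, ⨆ (_ : J₀ m ≤ j), ‖AX T (N j) P f x - E m j x‖ₑ with hΘ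
  have hΘ1 : ∀ m, ∫⁻ x, Θ m x ∂μ ≤ ENNReal.ofReal (2 * (1 / 4 : ℝ) ^ m) := fun m => hX m X μ T hT f hfm hf N hN
  have hΘm : ∀ m, Measurable (Θ m) := by
    intro m
    refine Measurable.iSup fun j => Measurable.iSup fun _ => Measurable.enorm ?_
    exact (hmeas _ _ hfm).sub (hmeas _ _ fun l => hEm _ _ _ _ _ (hfm l))
  have hsum : ∫⁻ x, ∑' m, Θ m x ∂μ ≠ ⊤ := by
    rw [lintegral_tsum fun m => (hΘm m).aemeasurable]
    refine ne_top_of_le_ne_top ?_ (ENNReal.tsum_le_tsum hΘ1)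
    rw [← ENNReal.ofReal_tsum_of_nonneg (fun m => by positivity)]
    · exact ENNReal.ofReal_ne_top
    · exact (summable_geometric_of_lt_one (by norm_num) (by norm_num)).mul_left 2
  have hfin : ∀ᵐ x ∂μ, ∑' m, Θ m x < ⊤ := ae_lt_top (Measurable.tsum hΘm) hsum
  have hg : ∀ m, ∀ᵐ x ∂μ, Tendsto (fun j : ℕ => E m j x) atTop (𝓝 0) := by
    intro m
    obtain ⟨g, -, -, hg1, -, hg3, -⟩ := xlim_g (μ := μ) T hT P e he (B m) (t₀ m) (κ m) N hN f hfm hf
    have hg0 : ∀ᵐ x ∂μ, g i x = 0 := by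
      have hQ : 1 ≤ QB (B m) (t₀ m) := Nat.one_le_iff_ne_zero.2 (by
        unfold QB
        exact pow_ne_zero _ (Nat.factorial_ne_zero _))
      filter_upwards [hg1 i, hz _ hQ] with x h1 h2
      exact tendsto_nhds_unique h1 h2
    have hg0' : ∀ᵐ x ∂μ, ∀ z : ℤ, g i ((T ^ z) x) = 0 := by
      rw [ae_all_iff]; intro z
      exact (hmp z).quasiMeasurePreserving.ae hg0
    filter_upwards [hg3, hg0'] with x h1 h2
    have h3 : ∀ N', AX T N' P g x = 0 := by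
      intro N'
      unfold AX tv
      rw [Finset.sum_eq_zero, zero_div]
      intro t _
      exact Finset.prod_eq_zero (mem_univ i) (h2 _)
    simpa only [h3, sub_zero] using h1
  rw [← ae_all_iff] at hg
  filter_upwards [hfin, hg] with x hx1 hx2
  have h0 : Tendsto (fun m => Θ m x) atTop (𝓝 0) := ENNReal.tendsto_atTop_zero_of_tsum_ne_top hx1.ne
  rw [tendsto_zero_iff_norm_tendsto_zero, Metric.tendsto_atTop]
  intro ε hε
  have h1 : ∃ m, Θ m x < ENNReal.ofReal (ε / 2) := by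
    have := (tendsto_order.1 h0).2 (ENNReal.ofReal (ε / 2)) (by simpa using hε)
    exact this.exists
  obtain ⟨m, hm⟩ := h1
  obtain ⟨j₁, hj₁⟩ := Metric.tendsto_atTop.1 (hx2 m) (ε / 2) (by positivity)
  refine ⟨max (J₀ m) j₁, fun j hj => ?_⟩
  have h2 : ‖AX T (N j) P f x - E m j x‖ₑ < ENNReal.ofReal (ε / 2) :=
    lt_of_le_of_lt (le_iSup₂_of_le (f := fun (j : ℕ) (_ : J₀ m ≤ j) => ‖AX T (N j) P f x - E m j x‖ₑ) j
      (le_trans (le_max_left _ _) hj) le_rfl) hm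
  rw [← ofReal_norm, ENNReal.ofReal_lt_ofReal_iff (by positivity)] at h2
  have h3 := hj₁ j (le_trans (le_max_right _ _) hj)
  rw [dist_zero_right] at h3
  rw [Real.dist_0_eq_abs, abs_norm]
  calc ‖AX T (N j) P f x‖ = ‖(AX T (N j) P f x - E m j x) + E m j x‖ := by rw [sub_add_cancel]
    _ ≤ ‖AX T (N j) P f x - E m j x‖ + ‖E m j x‖ := norm_add_le _ _
    _ < ε / 2 + ε / 2 := add_lt_add h2 h3
    _ = ε := by ring


end Pool.Agent.EQD.Lo.G
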