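import Pool.Agent.Lib.EQD.XAppr
import Pool.Agent.Lib.EQG.Defs

/-!
# Transference with a vector of widths (fork of `EQD/XTrans`, `EQD/XAppr`)
-/

set_option autoImplicit false

open Finset Polynomial MeasureTheory Filter Topology
open scoped ENNReal NNReal

namespace Pool.Agent.EQD.Lo.G

open Pool.Agent.HLT Pool.Agent.NLT Pool.Agent.NLG
open Pool.Agent.EQD.G (GDeg MidG LowG Sw)

open XTransAux (val_cast FF FF_apply meas_pow meas_zpow meas_AX meas_EwX)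

namespace GTransAux

/-- length of the average -/
def KK {n : ℕ} (B t₀ : ℕ) (κ : Fin n → ℕ) (N : ℕ → ℕ) (e : Fin n → ℕ) (j : ℕ) (l : Fin n) : ℕ :=
  N j ^ e l / 2 ^ κ l / QB B (tj j) * (QB B (tj j) / QB B t₀)

/-- bound for the visited points -/
def YY {n : ℕ} (P : Fin n → ℤ[X]) (e : Fin n → ℕ) (B t₀ : ℕ) (κ : Fin n → ℕ) (J₀ J₁ : ℕ) (N : ℕ → ℕ) : ℕ :=
  ∑ j ∈ Icc J₀ J₁, ∑ l : Fin n, (∑ t ∈ range (N j), ((P l).eval (t : ℤ)).natAbs +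
    QB B t₀ * KK B t₀ κ N e j l)

lemma YY_le {n : ℕ} (P : Fin n → ℤ[X]) (e : Fin n → ℕ) (B t₀ : ℕ) (κ : Fin n → ℕ) (J₀ J₁ : ℕ) (N : ℕ → ℕ) {j : ℕ}
    (hj : j ∈ Icc J₀ J₁) (l : Fin n) {t : ℕ} (ht : t < N j) :
    ((P l).eval (t : ℤ)).natAbs + QB B t₀ * KK B t₀ κ N e j l ≤ YY P e B t₀ κ J₀ J₁ N := by
  have h1 : ((P l).eval (t : ℤ)).natAbs ≤ ∑ t ∈ range (N j), ((P l).eval (t : ℤ)).natAbs :=
    Finset.single_le_sum (f := fun t : ℕ => ((P l).eval (t : ℤ)).natAbs) (fun _ _ => Nat.zero_le _)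
      (mem_range.2 ht)
  have h2 : (∑ t ∈ range (N j), ((P l).eval (t : ℤ)).natAbs + QB B t₀ * KK B t₀ κ N e j l) ≤
      ∑ l : Fin n, (∑ t ∈ range (N j), ((P l).eval (t : ℤ)).natAbs + QB B t₀ * KK B t₀ κ N e j l) :=
    Finset.single_le_sum (f := fun l : Fin n => (∑ t ∈ range (N j), ((P l).eval (t : ℤ)).natAbs +
      QB B t₀ * KK B t₀ κ N e j l)) (fun _ _ => Nat.zero_le _) (mem_univ l)
  have h3 : (∑ l : Fin n, (∑ t ∈ range (N j), ((P l).eval (t : ℤ)).natAbs +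
      QB B t₀ * KK B t₀ κ N e j l)) ≤ YY P e B t₀ κ J₀ J₁ N :=
    Finset.single_le_sum (f := fun j : ℕ => ∑ l : Fin n, (∑ t ∈ range (N j),
      ((P l).eval (t : ℤ)).natAbs + QB B t₀ * KK B t₀ κ N e j l)) (fun _ _ => Nat.zero_le _) hj
  omega

/-- the difference on the cyclic group -/
noncomputable def DD {n : ℕ} (P : Fin n → ℤ[X]) (e : Fin n → ℕ) (B t₀ : ℕ) (κ : Fin n → ℕ) (N : ℕ → ℕ) {M : ℕ}
    [NeZero M] (F : Fin n → ZMod M → ℂ) (j : ℕ) (z : ZMod M) : ℂ :=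
  AA (N j) P F z - AA (N j) P (fun l => Ew B t₀ (tj j) (N j ^ e l / 2 ^ κ l) (F l)) z

/-- the difference on the dynamical system -/
noncomputable def DX {n : ℕ} (P : Fin n → ℤ[X]) (e : Fin n → ℕ) (B t₀ : ℕ) (κ : Fin n → ℕ) (N : ℕ → ℕ) {X : Type}
    (T : Equiv.Perm X) (f : Fin n → X → ℂ) (j : ℕ) (x : X) : ℂ :=
  AX T (N j) P f x - AX T (N j) P (fun l => EwX T B t₀ (tj j) (N j ^ e l / 2 ^ κ l) (f l)) x

lemma DD_eq {n : ℕ} (P : Fin n → ℤ[X]) (e : Fin n → ℕ) (B t₀ : ℕ) (κ : Fin n → ℕ) (J₀ J₁ : ℕ) (N : ℕ → ℕ) {M : ℕ}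
    [NeZero M] {X : Type} (T : Equiv.Perm X) (f : Fin n → X → ℂ) (x : X) {j k : ℕ}
    (hj : j ∈ Icc J₀ J₁) (hk1 : YY P e B t₀ κ J₀ J₁ N ≤ k) (hk2 : k < M - YY P e B t₀ κ J₀ J₁ N) :
    DD P e B t₀ κ N (fun l => FF T M (f l) x) j (k : ZMod M) =
      DX P e B t₀ κ N T f j ((T ^ (k : ℤ)) x) := by
  unfold DD DX AA AX
  congr 1
  · unfold tv
    congr 1
    refine Finset.sum_congr rfl fun t ht => Finset.prod_congr rfl fun l _ => ?_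
    have h1 := YY_le P e B t₀ κ J₀ J₁ N hj l (mem_range.1 ht)
    exact FF_apply T (f l) x hk1 hk2 (v := (P l).eval (t : ℤ)) (by omega)
  · unfold tv
    congr 1
    refine Finset.sum_congr rfl fun t ht => Finset.prod_congr rfl fun l _ => ?_
    have h1 := YY_le P e B t₀ κ J₀ J₁ N hj l (mem_range.1 ht)
    exact XTransAux.Ew_eq T (f l) x hk1 hk2 (v := (P l).eval (t : ℤ)) h1

end GTransAux

open GTransAux

theorem trans {n : ℕ} (P : Fin n → ℤ[X]) (e : Fin n → ℕ) (B t₀ : ℕ) (κ : Fin n → ℕ) (J₀ J₁ : ℕ) (N : ℕ → ℕ) (ε : ℝ) (hε : 0 ≤ ε)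
    (H : ∃ M₀ : ℕ, 1 ≤ M₀ ∧ ∀ (M : ℕ) [NeZero M], M₀ ∣ M → ∀ f : Fin n → ZMod M → ℂ, (∀ l, Bd (f l)) →
      ∀ c : ZMod M → ℕ, Ch J₀ J₁ c →
      avr (fun x => ‖AA (N (c x)) P f x -
        AA (N (c x)) P (fun l => Ew B t₀ (tj (c x)) (N (c x) ^ e l / 2 ^ κ l) (f l)) x‖) ≤ ε)
    (X : Type) [MeasurableSpace X] (μ : Measure X) [IsProbabilityMeasure μ] (T : Equiv.Perm X) (hT : IMP μ T)
    (f : Fin n → X → ℂ) (hfm : ∀ l, Measurable (f l)) (hf : ∀ l x, ‖f l x‖ ≤ 1) :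
    ∫⁻ x, (⨆ j ∈ Icc J₀ J₁, ‖AX T (N j) P f x -
      AX T (N j) P (fun l => EwX T B t₀ (tj j) (N j ^ e l / 2 ^ κ l) (f l)) x‖ₑ) ∂μ ≤ ENNReal.ofReal (2 * ε) := by
  classical
  rcases lt_or_ge J₁ J₀ with hJ | hJ
  · have hE : Icc J₀ J₁ = ∅ := Finset.Icc_eq_empty (by omega)
    simp [hE]
  obtain ⟨M₀, hM₀, H⟩ := H
  set Y := YY P e B t₀ κ J₀ J₁ N with hY
  set M := M₀ * (4 * Y + 4) with hM
  have hM4 : 4 * Y + 4 ≤ M := by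
    rw [hM]
    exact Nat.le_mul_of_pos_left _ hM₀
  have : NeZero M := ⟨by omega⟩
  have hM0 : (0 : ℝ) < M := by exact_mod_cast (by omega : 0 < M)
  set Θ : X → ℝ≥0∞ := fun x => ⨆ j ∈ Icc J₀ J₁, ‖DX P e B t₀ κ N T f j x‖ₑ with hΘ
  have hΘm : Measurable Θ := by
    refine Measurable.iSup fun j => Measurable.iSup fun _ => ?_
    unfold DX
    exact ((meas_AX hT _ _ hfm).sub (meas_AX hT _ _ fun l => meas_EwX hT _ _ _ _ (hfm l))).enorm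
  change ∫⁻ x, Θ x ∂μ ≤ ENNReal.ofReal (2 * ε)
  -- pointwise bound
  have hpt : ∀ x : X, ∑ k ∈ Ico Y (M - Y), Θ ((T ^ k) x) ≤ ENNReal.ofReal (M * ε) := by
    intro x
    set F : Fin n → ZMod M → ℂ := fun l => FF T M (f l) x with hF
    have hFb : ∀ l, Bd (F l) := fun l z => hf l _
    have hmax : ∀ z : ZMod M, ∃ j ∈ Icc J₀ J₁, ∀ i ∈ Icc J₀ J₁,
        ‖DD P e B t₀ κ N F i z‖ ≤ ‖DD P e B t₀ κ N F j z‖ := fun z =>
      Finset.exists_max_image _ _ ⟨J₀, mem_Icc.2 ⟨le_rfl, hJ⟩⟩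
    choose c hc1 hc2 using hmax
    have h1 := H M (Dvd.intro _ rfl) F hFb c (fun z => mem_Icc.1 (hc1 z))
    have h2 : ∑ z : ZMod M, ‖DD P e B t₀ κ N F (c z) z‖ ≤ M * ε := by
      have h3 : avr (fun z => ‖DD P e B t₀ κ N F (c z) z‖) ≤ ε := h1
      unfold avr at h3
      rw [div_le_iff₀ hM0] at h3
      linarith
    have h3 : ∀ k ∈ Ico Y (M - Y), Θ ((T ^ k) x) ≤
        ‖DD P e B t₀ κ N F (c (k : ZMod M)) (k : ZMod M)‖ₑ := by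
      intro k hk
      rw [mem_Ico] at hk
      refine iSup₂_le fun j hj => ?_
      have h4 := DD_eq P e B t₀ κ J₀ J₁ N (M := M) T f x hj hk.1 hk.2
      have h5 : ((T ^ (k : ℤ)) x) = (T ^ k) x := by rw [zpow_natCast]
      rw [h5] at h4
      rw [← h4, ← ofReal_norm, ← ofReal_norm]
      exact ENNReal.ofReal_le_ofReal (hc2 _ j hj)
    calc ∑ k ∈ Ico Y (M - Y), Θ ((T ^ k) x)
        ≤ ∑ k ∈ Ico Y (M - Y), ‖DD P e B t₀ κ N F (c (k : ZMod M)) (k : ZMod M)‖ₑ :=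
          Finset.sum_le_sum h3
      _ = ∑ z ∈ (Ico Y (M - Y)).image (fun k : ℕ => (k : ZMod M)),
            ‖DD P e B t₀ κ N F (c z) z‖ₑ := by
          rw [Finset.sum_image]
          intro a ha b hb hab
          simp only [Finset.coe_Ico, Set.mem_Ico] at ha hb
          have h6 := congrArg ZMod.val hab
          simp only at h6
          rwa [ZMod.val_natCast_of_lt (by omega), ZMod.val_natCast_of_lt (by omega)] at h6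
      _ ≤ ∑ z : ZMod M, ‖DD P e B t₀ κ N F (c z) z‖ₑ :=
          Finset.sum_le_sum_of_subset (Finset.subset_univ _)
      _ = ENNReal.ofReal (∑ z : ZMod M, ‖DD P e B t₀ κ N F (c z) z‖) := by
          rw [ENNReal.ofReal_sum_of_nonneg fun _ _ => norm_nonneg _]
          refine Finset.sum_congr rfl fun z _ => ?_
          rw [ofReal_norm]
      _ ≤ ENNReal.ofReal (M * ε) := ENNReal.ofReal_le_ofReal h2
  have hint : ∫⁻ x, ∑ k ∈ Ico Y (M - Y), Θ ((T ^ k) x) ∂μ = ((M - 2 * Y : ℕ) : ℝ≥0∞) * ∫⁻ x, Θ x ∂μ := by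
    rw [lintegral_finsetSum (Ico Y (M - Y)) (f := fun k x => Θ ((T ^ k) x))
      fun k _ => hΘm.comp (meas_pow hT k)]
    have h1 : ∀ k ∈ Ico Y (M - Y), ∫⁻ x, Θ ((T ^ k) x) ∂μ = ∫⁻ x, Θ x ∂μ := by
      intro k _
      have h : ((T ^ k : Equiv.Perm X) : X → X) = T^[k] := by
        rw [Equiv.Perm.iterate_eq_pow]
      rw [h]
      exact (hT.2.2.iterate k).lintegral_comp hΘm
    rw [Finset.sum_congr rfl h1, Finset.sum_const, Nat.card_Ico, nsmul_eq_mul]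
    congr 2
    omega
  have hup : ((M - 2 * Y : ℕ) : ℝ≥0∞) * ∫⁻ x, Θ x ∂μ ≤ ENNReal.ofReal (M * ε) := by
    rw [← hint]
    calc ∫⁻ x, ∑ k ∈ Ico Y (M - Y), Θ ((T ^ k) x) ∂μ ≤ ∫⁻ _, ENNReal.ofReal (M * ε) ∂μ :=
          lintegral_mono fun x => hpt x
      _ = ENNReal.ofReal (M * ε) := by simp
  have h2 : ENNReal.ofReal (M * ε) ≤ ((M - 2 * Y : ℕ) : ℝ≥0∞) * ENNReal.ofReal (2 * ε) := by
    have h3 : ((M - 2 * Y : ℕ) : ℝ≥0∞) = ENNReal.ofReal ((M - 2 * Y : ℕ) : ℝ) := by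
      rw [ENNReal.ofReal_natCast]
    rw [h3, ← ENNReal.ofReal_mul (Nat.cast_nonneg _)]
    refine ENNReal.ofReal_le_ofReal ?_
    have h4 : (M : ℝ) ≤ 2 * ((M - 2 * Y : ℕ) : ℝ) := by
      exact_mod_cast (by omega : M ≤ 2 * (M - 2 * Y))
    nlinarith
  have h5 := hup.trans h2
  have h6 : ((M - 2 * Y : ℕ) : ℝ≥0∞) ≠ 0 := by
    have : M - 2 * Y ≠ 0 := by omega
    exact_mod_cast this
  have h7 : ((M - 2 * Y : ℕ) : ℝ≥0∞) ≠ ∞ := ENNReal.natCast_ne_top _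
  exact (ENNReal.mul_le_mul_iff_right h6 h7).1 h5

theorem appr {n : ℕ} {P : Fin n → ℤ[X]} {e : Fin n → ℕ} (hM : MidG P e) (hL : LowG P e) (ε : ℝ) (hε : 0 < ε) :
    ∃ B : ℕ, ∃ κ : Fin n → ℕ, ∃ t₀ J₀ : ℕ, 1 ≤ B ∧ ∀ J₁ : ℕ, ∃ M₀ : ℕ, 1 ≤ M₀ ∧ ∀ (M : ℕ) [NeZero M], M₀ ∣ M → ∀ N : ℕ → ℕ, Sc N →
      ∀ f : Fin n → ZMod M → ℂ, (∀ l, Bd (f l)) → ∀ c : ZMod M → ℕ, Ch J₀ J₁ c →
      avr (fun x => ‖AA (N (c x)) P f x -
        AA (N (c x)) P (fun l => Ew B t₀ (tj (c x)) (N (c x) ^ e l / 2 ^ κ l) (f l)) x‖) ≤ ε := by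
  obtain ⟨B, hB, hM⟩ := hM
  obtain ⟨κ, Ja, hM⟩ := hM B le_rfl (ε / 2) (half_pos hε)
  obtain ⟨t₀, Jb, -, hL⟩ := hL B hB κ (ε / 2) (half_pos hε)
  refine ⟨B, κ, t₀, max Ja Jb, hB, fun J₁ => ?_⟩
  obtain ⟨Ma, ha, hM⟩ := hM J₁
  obtain ⟨Mb, hb, hL⟩ := hL J₁
  refine ⟨Ma * Mb, Nat.mul_pos ha hb, ?_⟩
  intro M _ hdvd N hN f hf c hc
  have h1 := hM M ((Dvd.intro _ rfl).trans hdvd) N hN f hf c
    fun x => ⟨(le_max_left _ _).trans (hc x).1, (hc x).2⟩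
  have h2 := hL M ((Dvd.intro_left _ rfl).trans hdvd) N hN f hf c
    fun x => ⟨(le_max_right _ _).trans (hc x).1, (hc x).2⟩
  have h3 := XApprAux.avr_add_le (fun x => norm_sub_le_norm_sub_add_norm_sub _ _ _) h1 h2
  rwa [add_halves] at h3

theorem xappr {n : ℕ} {P : Fin n → ℤ[X]} {e : Fin n → ℕ} (hM : MidG P e) (hL : LowG P e) (ε : ℝ) (hε : 0 < ε) :
    ∃ B : ℕ, ∃ κ : Fin n → ℕ, ∃ t₀ J₀ : ℕ, 1 ≤ B ∧ ∀ (X : Type) [MeasurableSpace X] (μ : Measure X) [IsProbabilityMeasure μ]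
      (T : Equiv.Perm X), IMP μ T → ∀ f : Fin n → X → ℂ, (∀ l, Measurable (f l)) → (∀ l x, ‖f l x‖ ≤ 1) →
      ∀ N : ℕ → ℕ, Sc N →
      ∫⁻ x, (⨆ j : ℕ, ⨆ (_ : J₀ ≤ j), ‖AX T (N j) P f x -
        AX T (N j) P (fun l => EwX T B t₀ (tj j) (N j ^ e l / 2 ^ κ l) (f l)) x‖ₑ) ∂μ ≤ ENNReal.ofReal (2 * ε) := by
  obtain ⟨B, κ, t₀, J₀, hB, H⟩ := appr hM hL ε hε
  refine ⟨B, κ, t₀, J₀, hB, ?_⟩
  intro X _ μ _ T hT f hfm hf N hN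
  have hfin : ∀ J₁ : ℕ, ∫⁻ x, (⨆ j ∈ Icc J₀ J₁, ‖AX T (N j) P f x -
      AX T (N j) P (fun l => EwX T B t₀ (tj j) (N j ^ e l / 2 ^ κ l) (f l)) x‖ₑ) ∂μ ≤
      ENNReal.ofReal (2 * ε) := by
    intro J₁
    refine trans P e B t₀ κ J₀ J₁ N ε hε.le ?_ X μ T hT f hfm hf
    obtain ⟨M₀, h0, H⟩ := H J₁
    refine ⟨M₀, h0, ?_⟩
    intro M _ hd f hf c hc
    exact H M hd N hN f hf c hc
  have hmeas : ∀ j, Measurable fun x => ‖AX T (N j) P f x -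
      AX T (N j) P (fun l => EwX T B t₀ (tj j) (N j ^ e l / 2 ^ κ l) (f l)) x‖ₑ := by
    intro j
    exact ((XApprAux.meas_AX hT.1 hT.2.1 _ P hfm).sub (XApprAux.meas_AX hT.1 hT.2.1 _ P fun l =>
      XApprAux.meas_EX hT.1 hT.2.1 _ _ (hfm l))).enorm
  exact XApprAux.mono_lim μ (fun (j : ℕ) (x : X) => ‖AX T (N j) P f x -
    AX T (N j) P (fun l => EwX T B t₀ (tj j) (N j ^ e l / 2 ^ κ l) (f l)) x‖ₑ) hmeas J₀ _ hfin


end Pool.Agent.EQD.Lo.G
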