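import Pool.Agent.Lib.EQG.Lo.Fib
import Pool.Agent.Lib.EQD.ZStar

/-!
# LowG: the maximum over all scales of the averages over the residues (fork of `EQD/ZStar`)
-/

set_option autoImplicit false

open Finset Polynomial

namespace Pool.Agent.EQD.Lo.G

open Pool.Agent.HLT Pool.Agent.NLT Pool.Agent.NLG
open Pool.Agent.EQD.G (GDeg MidG LowG Sw)

open ZStarAux

theorem zstar {n : ℕ} {P : Fin n → ℤ[X]} {e : Fin n → ℕ} {i₀ : Fin n} (h : GDeg P e i₀) :
    ∃ C : ℕ, ∀ (M Q q L S : ℕ) [NeZero M] [NeZero Q] (hQ : Q ∣ M), Q * 2 ^ L ∣ M → 2 ≤ S → q ∣ Q →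
      (∀ r, 1 ≤ r → r ≤ S ^ C → r ∣ q) → ∀ (i : Fin n) (a b : ℕ) (f : Fin n → ZMod M → ℂ), (∀ l, Bd (f l)) →
      ∀ K : ℕ → Fin n → ℕ, (∀ l, ∀ j ∈ Icc a b, S ^ C ≤ K j l ∧ K j l < 2 ^ L) →
      (∀ l i j, a ≤ i → i ≤ j → j ≤ b → K i l ≤ K j l) →
      (∀ l k, ((Icc a b).filter (fun j => Nat.log 2 (K j l) = k)).card ≤ 4) →
      avr (fun y : ZMod M => avr (fun ρ : ZMod Q => (fmax (Icc a b) (fun j =>
        ‖ZZ hQ P (hyb (fun l => Eb Q (K j l) (f l)) (fun l => Eb q (Q / q) (Eb Q (K j l) (f l))) i) y ρ‖)) ^ 2)) ≤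
        (C : ℝ) / S := by
  obtain ⟨C₁, hC₁⟩ := fibmax h
  refine ⟨2 * C₁ + (2 * n + 4) + (2 * C₁ * (80000 * n + 2) + 2), ?_⟩
  set C := 2 * C₁ + (2 * n + 4) + (2 * C₁ * (80000 * n + 2) + 2) with hC
  intro M Q q L S _ _ hQ hL hS hq hqr i a b f hf K hK hm hc
  have hS1 : 1 ≤ S := by omega
  have hSr : (2 : ℝ) ≤ S := by exact_mod_cast hS
  have hS0 : (0 : ℝ) < S := by linarith
  have hQ0 : (0 : ℝ) < Q := by
    have : 0 < Q := Nat.pos_of_ne_zero (NeZero.ne Q)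
    exact_mod_cast this
  -- the height
  set η : ℝ := Real.sqrt (1 / S) / 4 with hηd
  have hsq : Real.sqrt (1 / (S : ℝ)) ^ 2 = 1 / S := Real.sq_sqrt (by positivity)
  have hη : 0 < η := by
    have : 0 < Real.sqrt (1 / (S : ℝ)) := Real.sqrt_pos.mpr (by positivity)
    positivity
  have hη2 : (4 * η) ^ 2 = 1 / S := by
    rw [hηd, mul_div_cancel₀ _ (by norm_num : (4 : ℝ) ≠ 0), hsq]
  have hη3 : 5000 / η ^ 2 = 80000 * S := by
    have h1 : η ^ 2 = 1 / (16 * S) := by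
      rw [hηd, div_pow, hsq]
      field_simp
      norm_num
    rw [h1]
    field_simp
    norm_num
  have hK1 : ∀ l, ∀ j ∈ Icc a b, 1 ≤ K j l := fun l j hj => (Nat.one_le_pow _ _ hS1).trans (hK l j hj).1
  -- the events
  have hev : ∀ l : Fin n, ∃ ev : ℕ → Finset (ZMod M), ∑ j ∈ Icc a b, ((ev j).card : ℝ) / M ≤ 5000 / η ^ 2 ∧
      ∀ (x : ZMod M) (i j : ℕ), a ≤ i → i ≤ j → j ≤ b → (∀ k, i < k → k ≤ j → x ∉ ev k) →
        ‖Eb Q (K j l) (f l) x - Eb Q (K i l) (f l) x‖ ≤ 4 * η := fun l =>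
    events hL (f l) (hf l) a b (fun j => K j l) (hK1 l) (fun j hj => (hK l j hj).2) (hm l) (hc l) η hη
  choose ev hev1 hev2 using hev
  -- the error
  set δ : ℝ := 2 ^ n * ((n : ℝ) * (4 * (2 / (S : ℝ) ^ C))) with hδd
  have hδ0 : 0 ≤ δ := by positivity
  have hδ1 : δ ≤ 1 / S := by
    have h1 : (S : ℝ) * (8 * 2 ^ n * n) ≤ (S : ℝ) ^ C := by
      have h2 : S * (8 * 2 ^ n * n) ≤ S ^ C := by
        calc S * (8 * 2 ^ n * n) ≤ S * (8 * 2 ^ n * 2 ^ n) :=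
              Nat.mul_le_mul_left _ (Nat.mul_le_mul_left _ (Nat.lt_two_pow_self).le)
          _ = S * 2 ^ (2 * n + 3) := by
              congr 1
              rw [two_mul, pow_add, pow_add]
              ring
          _ ≤ S * S ^ (2 * n + 3) := Nat.mul_le_mul_left _ (Nat.pow_le_pow_left hS _)
          _ = S ^ (2 * n + 4) := by rw [← pow_succ']
          _ ≤ S ^ C := Nat.pow_le_pow_right hS1 (by omega)
      exact_mod_cast h2
    have h3 : (0 : ℝ) < (S : ℝ) ^ C := by positivity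
    rw [hδd, le_div_iff₀ hS0]
    have h4 : 2 ^ n * ((n : ℝ) * (4 * (2 / (S : ℝ) ^ C))) * S = (S * (8 * 2 ^ n * n)) / (S : ℝ) ^ C := by
      field_simp
      ring
    rw [h4, div_le_one h3]
    exact h1
  -- one fibre
  have hfib : ∀ y : ZMod M, avr (fun ρ : ZMod Q => (fmax (Icc a b) (fun j =>
        ‖ZZ hQ P (hyb (fun l => Eb Q (K j l) (f l)) (fun l => Eb q (Q / q) (Eb Q (K j l) (f l))) i) y ρ‖)) ^ 2) ≤
      (2 * (C₁ : ℝ) / (S : ℝ) ^ 2) * (∑ l, ∑ j ∈ Icc a b, ((evy hQ (ev l j) y).card : ℝ) / Q) +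
        (2 * (C₁ : ℝ) * (1 / (S : ℝ) ^ 2 + 1 / S) + 2 * δ ^ 2) := by
    intro y
    have h1 := hC₁ Q q (S ^ 2) (by nlinarith) hq (fun r hr hr2 => hqr r hr (hr2.trans (by
      rw [← pow_mul]
      exact Nat.pow_le_pow_right hS1 (by omega)))) i a b
      (fun j l => pf hQ (Eb Q (K j l) (f l)) y) (fun j l ρ => Bd_Eb Q (K j l) (hf l) _)
      (fun l j => evy hQ (ev l j) y) (4 * η) (by positivity) (by
        intro l ρ i' j' ha hij hb hk
        refine hev2 l (y + (ofs hQ y ρ : ZMod M)) i' j' ha hij hb (fun k hk1 hk2 hmem => hk k hk1 hk2 ?_)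
        unfold evy
        exact Finset.mem_filter.mpr ⟨Finset.mem_univ _, hmem⟩)
    rw [hη2] at h1
    have h2 : ∀ ρ : ZMod Q, (fmax (Icc a b) (fun j =>
        ‖ZZ hQ P (hyb (fun l => Eb Q (K j l) (f l)) (fun l => Eb q (Q / q) (Eb Q (K j l) (f l))) i) y ρ‖)) ^ 2 ≤
        2 * (fmax (Icc a b) (fun j => ‖AA Q P (hyb (fun l => pf hQ (Eb Q (K j l) (f l)) y)
          (fun l => Eb q (Q / q) (pf hQ (Eb Q (K j l) (f l)) y)) i) ρ‖)) ^ 2 + 2 * δ ^ 2 := by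
      intro ρ
      have h3 : fmax (Icc a b) (fun j =>
        ‖ZZ hQ P (hyb (fun l => Eb Q (K j l) (f l)) (fun l => Eb q (Q / q) (Eb Q (K j l) (f l))) i) y ρ‖) ≤
        fmax (Icc a b) (fun j => ‖AA Q P (hyb (fun l => pf hQ (Eb Q (K j l) (f l)) y)
          (fun l => Eb q (Q / q) (pf hQ (Eb Q (K j l) (f l)) y)) i) ρ‖) + δ := by
        refine fmax_add_le hδ0 (fun j _ => norm_nonneg _) (fun j hj => ?_)
        have hSC : (0 : ℝ) < (S : ℝ) ^ C := by positivity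
        have h4 := ZZ_near hQ P (fun l => Eb Q (K j l) (f l)) (fun l => Bd_Eb Q (K j l) (hf l))
          (κ := 2 / (S : ℝ) ^ C) (by positivity) (by
            intro l x
            have h5 := Eb_slow Q (K j l) (hK1 l j hj) (hf l) x
            refine h5.trans ?_
            rw [mul_one]
            refine div_le_div_of_nonneg_left (by norm_num) hSC ?_
            exact_mod_cast (hK l j hj).1) q hq i y ρ
        have h6 := norm_sub_norm_le
          (ZZ hQ P (hyb (fun l => Eb Q (K j l) (f l)) (fun l => Eb q (Q / q) (Eb Q (K j l) (f l))) i) y ρ)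
          (AA Q P (hyb (fun l => pf hQ (Eb Q (K j l) (f l)) y)
          (fun l => Eb q (Q / q) (pf hQ (Eb Q (K j l) (f l)) y)) i) ρ)
        linarith
      have h7 : 0 ≤ fmax (Icc a b) (fun j =>
        ‖ZZ hQ P (hyb (fun l => Eb Q (K j l) (f l)) (fun l => Eb q (Q / q) (Eb Q (K j l) (f l))) i) y ρ‖) :=
        fmax_nonneg (fun j _ => norm_nonneg _)
      have h8 := pow_le_pow_left₀ h7 h3 2
      refine h8.trans ?_
      nlinarith [sq_nonneg (fmax (Icc a b) (fun j => ‖AA Q P (hyb (fun l => pf hQ (Eb Q (K j l) (f l)) y)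
          (fun l => Eb q (Q / q) (pf hQ (Eb Q (K j l) (f l)) y)) i) ρ‖) - δ)]
    refine (avr_mono h2).trans ?_
    rw [avr_add, avr_mul_left, avr_const]
    have h9 : ((S ^ 2 : ℕ) : ℝ) = (S : ℝ) ^ 2 := by push_cast; ring
    rw [h9] at h1
    have h10 : (2 * (C₁ : ℝ) / (S : ℝ) ^ 2) * (∑ l, ∑ j ∈ Icc a b, ((evy hQ (ev l j) y).card : ℝ) / Q) +
        (2 * (C₁ : ℝ) * (1 / (S : ℝ) ^ 2 + 1 / S) + 2 * δ ^ 2) =
        2 * ((C₁ : ℝ) * ((1 + ∑ l, ∑ j ∈ Icc a b, ((evy hQ (ev l j) y).card : ℝ) / Q) / (S : ℝ) ^ 2 + 1 / S)) +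
          2 * δ ^ 2 := by
      ring
    rw [h10]
    linarith
  refine (avr_mono hfib).trans ?_
  rw [avr_add, avr_mul_left, avr_const]
  have hW : avr (fun y : ZMod M => ∑ l, ∑ j ∈ Icc a b, ((evy hQ (ev l j) y).card : ℝ) / Q) ≤ n * (80000 * S) := by
    rw [avr_sum]
    have h1 : ∀ l ∈ (univ : Finset (Fin n)), avr (fun y : ZMod M => ∑ j ∈ Icc a b, ((evy hQ (ev l j) y).card : ℝ) / Q) ≤
        80000 * S := by
      intro l _
      rw [avr_sum]
      simp only [avr_evy]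
      rw [← hη3]
      exact hev1 l
    refine (Finset.sum_le_card_nsmul _ _ _ h1).trans ?_
    rw [Finset.card_univ, Fintype.card_fin, nsmul_eq_mul]
  have hC0 : (0 : ℝ) ≤ C₁ := Nat.cast_nonneg C₁
  have h1 : (2 * (C₁ : ℝ) / (S : ℝ) ^ 2) *
      avr (fun y : ZMod M => ∑ l, ∑ j ∈ Icc a b, ((evy hQ (ev l j) y).card : ℝ) / Q) ≤
      2 * C₁ * (80000 * n) / S := by
    refine (mul_le_mul_of_nonneg_left hW (by positivity)).trans (le_of_eq ?_)
    field_simp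
  have h2 : 1 / (S : ℝ) ^ 2 ≤ 1 / S := by
    refine div_le_div_of_nonneg_left (by norm_num) hS0 ?_
    nlinarith
  have h3 : δ ^ 2 ≤ 1 / S := by
    refine le_trans ?_ h2
    have := pow_le_pow_left₀ hδ0 hδ1 2
    rw [div_pow, one_pow] at this
    exact this
  have h4 : 2 * (C₁ : ℝ) * (1 / (S : ℝ) ^ 2 + 1 / S) ≤ 2 * C₁ * (1 / S + 1 / S) :=
    mul_le_mul_of_nonneg_left (by linarith) (by positivity)
  have h5 : 2 * (C₁ : ℝ) * (80000 * n) / S + (2 * C₁ * (1 / S + 1 / S) + 2 * (1 / S)) =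
      (2 * C₁ * (80000 * n + 2) + 2) / S := by
    field_simp
    ring
  have h6 : (2 * (C₁ : ℝ) * (80000 * n + 2) + 2) / S ≤ (C : ℝ) / S := by
    refine div_le_div_of_nonneg_right ?_ hS0.le
    rw [hC]
    push_cast
    have : (0 : ℝ) ≤ n := Nat.cast_nonneg n
    nlinarith
  linarith


end Pool.Agent.EQD.Lo.G
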